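import Mathlib

/-!
Path systems in graphs (Cizma–Linial), problem MP_696e10_co.
-/

namespace Pool.Agent.Q281.IPS

/-- A path system in `G`: one simple path `path u v` for every pair of vertices; the path for
`(v, u)` is the reverse of the path for `(u, v)`. -/
structure PathSystem {V : Type} (G : SimpleGraph V) where
  path : ∀ u v : V, G.Walk u v
  isPath : ∀ u v, (path u v).IsPath
  symm : ∀ u v, path v u = (path u v).reverse

/-- Every segment of a path of the system is the path of the system between its ends. -/
def PathSystem.Consistent {V : Type} {G : SimpleGraph V} (P : PathSystem G) : Prop :=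
  ∀ (u v x y : V) (p : G.Walk u x) (q : G.Walk x y) (r : G.Walk y v),
    P.path u v = (p.append q).append r → q = P.path x y

/-- There are positive weights on the edges of `G` for which every path of the system is a
shortest path. -/
def PathSystem.Metrizable {V : Type} {G : SimpleGraph V} (P : PathSystem G) : Prop :=
  ∃ w : Sym2 V → ℝ, (∀ e ∈ G.edgeSet, 0 < w e) ∧
    ∀ (u v : V) (Q : G.Walk u v), Q.IsPath →
      ((P.path u v).edges.map w).sum ≤ (Q.edges.map w).sum

/-- The system has a reduction: a partition of the vertex set into two nonempty parts, each of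
which contains all vertices of the paths of the system between its members. -/
def PathSystem.Reducible {V : Type} {G : SimpleGraph V} (P : PathSystem G) : Prop :=
  ∃ A : Set V, A.Nonempty ∧ Aᶜ.Nonempty ∧
    (∀ u ∈ A, ∀ v ∈ A, ∀ x ∈ (P.path u v).support, x ∈ A) ∧
    (∀ u ∈ Aᶜ, ∀ v ∈ Aᶜ, ∀ x ∈ (P.path u v).support, x ∈ Aᶜ)

/-- `G` has a consistent path system that is irreducible and not metrizable. -/
def Good {V : Type} (G : SimpleGraph V) : Prop :=
  ∃ P : PathSystem G, P.Consistent ∧ ¬ P.Reducible ∧ ¬ P.Metrizable

/-- The probability that the uniformly random labelled graph on `n` vertices has `Q`. -/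
noncomputable def pr (n : ℕ) (Q : SimpleGraph (Fin n) → Prop) : ℝ :=
  (Nat.card {G : SimpleGraph (Fin n) // Q G} : ℝ) / Nat.card (SimpleGraph (Fin n))

end Pool.Agent.Q281.IPS
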