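import Mathlib
import Pool.Agent.Q281.IPS.Defs

/-!
Tail bound for the uniform random graph.
-/

open Filter Topology

namespace Pool.Agent.Q281.IPS

/-- Sum over all functions of a product of local factors. -/
lemma sum_prod_local {E I J : Type} [Fintype E] [Fintype I] [Fintype J] [DecidableEq E]
    [DecidableEq I] [DecidableEq J]
    (φ : I × J → E) (hφ : Function.Injective φ) (g : (J → Bool) → ℝ) :
    ∑ f : E → Bool, ∏ i : I, g (fun j => f (φ (i, j)))
      = (∑ c : J → Bool, g c) ^ Fintype.card I *
        2 ^ (Fintype.card E - Fintype.card I * Fintype.card J) := by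
  classical
  -- split E into range and complement
  let R : Type := {e : E // e ∈ Set.range φ}
  let C : Type := {e : E // ¬ e ∈ Set.range φ}
  let eq1 : (E → Bool) ≃ ((R → Bool) × (C → Bool)) :=
    Equiv.piEquivPiSubtypeProd (fun e => e ∈ Set.range φ) (fun _ => Bool)
  let eR : I × J ≃ R := Equiv.ofInjective φ hφ
  let eq2 : (R → Bool) ≃ (I → J → Bool) :=
    (Equiv.arrowCongr eR.symm (Equiv.refl Bool)).trans (Equiv.curry I J Bool)
  let eq : (E → Bool) ≃ ((I → J → Bool) × (C → Bool)) :=
    eq1.trans (Equiv.prodCongr eq2 (Equiv.refl _))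
  have hval : ∀ f : E → Bool, ∀ i j, (eq f).1 i j = f (φ (i, j)) := by
    intro f i j
    rfl
  have h1 : ∑ f : E → Bool, ∏ i : I, g (fun j => f (φ (i, j)))
      = ∑ x : (I → J → Bool) × (C → Bool), ∏ i : I, g (x.1 i) := by
    apply Fintype.sum_equiv eq
    intro f
    rfl
  rw [h1, Fintype.sum_prod_type]
  have h2 : ∀ x : I → J → Bool, ∑ y : C → Bool, ∏ i : I, g (x i)
      = (2 : ℝ) ^ (Fintype.card C) * ∏ i : I, g (x i) := by
    intro x
    rw [Finset.sum_const, Finset.card_univ, Fintype.card_fun, Fintype.card_bool, nsmul_eq_mul]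
    push_cast
    rfl
  simp only [h2]
  rw [← Finset.mul_sum]
  have h3 : ∑ x : I → J → Bool, ∏ i : I, g (x i) = (∑ c : J → Bool, g c) ^ Fintype.card I := by
    have := (Finset.prod_univ_sum (fun _ : I => (Finset.univ : Finset (J → Bool)))
      (fun _ c => g c)).symm
    rw [Fintype.piFinset_univ] at this
    rw [this, Finset.prod_const, Finset.card_univ]
  have h4 : Fintype.card C = Fintype.card E - Fintype.card I * Fintype.card J := by
    have h5 : Fintype.card C = Fintype.card E - Fintype.card R :=
      Fintype.card_subtype_compl _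
    have h6 : Fintype.card R = Fintype.card I * Fintype.card J := by
      rw [← Fintype.card_prod]
      exact (Fintype.card_congr eR).symm
    omega
  rw [h3, h4, mul_comm]

/-- Lower tail for the number of blocks with a prescribed pattern. -/
lemma tail_bits {E I J : Type} [Fintype E] [Fintype I] [Fintype J] [DecidableEq E]
    [DecidableEq I] [DecidableEq J]
    (φ : I × J → E) (hφ : Function.Injective φ) (t : J → Bool) (m : ℕ) :
    ((Finset.univ.filter (fun f : E → Bool =>
      (Finset.univ.filter (fun i : I => ∀ j, f (φ (i, j)) = t j)).card < m)).card : ℝ)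
      ≤ 2 ^ m * (1 - 1 / 2 ^ (Fintype.card J + 1)) ^ Fintype.card I * 2 ^ Fintype.card E := by
  classical
  set k := Fintype.card J with hk
  let g : (J → Bool) → ℝ := fun c => if c = t then 1 / 2 else 1
  have hg : ∑ c : J → Bool, g c = 2 ^ k * (1 - 1 / 2 ^ (k + 1)) := by
    have h1 : ∀ c, g c = 1 - (if c = t then (1 / 2 : ℝ) else 0) := by
      intro c
      by_cases h : c = t
      · simp [g, h]; norm_num
      · simp [g, h]
    simp only [h1]
    rw [Finset.sum_sub_distrib, Finset.sum_const, Finset.card_univ, Fintype.card_fun,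
      Fintype.card_bool, Finset.sum_ite_eq' Finset.univ t]
    simp only [Finset.mem_univ, if_true, nsmul_eq_mul, mul_one]
    push_cast
    rw [← hk, pow_succ]
    field_simp
  have hkey := sum_prod_local φ hφ g
  have hprod : ∀ f : E → Bool, ∏ i : I, g (fun j => f (φ (i, j)))
      = (1 / 2) ^ (Finset.univ.filter (fun i : I => ∀ j, f (φ (i, j)) = t j)).card := by
    intro f
    have : ∀ i : I, g (fun j => f (φ (i, j))) = if (∀ j, f (φ (i, j)) = t j) then (1 / 2 : ℝ) else 1 := by
      intro i
      have hiff : ((fun j => f (φ (i, j))) = t) ↔ (∀ j, f (φ (i, j)) = t j) :=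
        ⟨fun h j => congrFun h j, fun h => funext h⟩
      simp only [g, hiff]
    simp only [this]
    rw [Finset.prod_ite]
    simp
  have hle : ((Finset.univ.filter (fun f : E → Bool =>
      (Finset.univ.filter (fun i : I => ∀ j, f (φ (i, j)) = t j)).card < m)).card : ℝ)
      ≤ ∑ f : E → Bool, 2 ^ m * ∏ i : I, g (fun j => f (φ (i, j))) := by
    rw [Finset.card_eq_sum_ones, Nat.cast_sum, Finset.sum_filter]
    apply Finset.sum_le_sum
    intro f _
    rw [hprod f]
    split_ifs with h
    · have h1 : (2 : ℝ) ^ m * (1 / 2) ^ (Finset.univ.filter (fun i : I => ∀ j, f (φ (i, j)) = t j)).card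
          ≥ 1 := by
        set c := (Finset.univ.filter (fun i : I => ∀ j, f (φ (i, j)) = t j)).card with hc
        obtain ⟨d, hd⟩ := Nat.exists_eq_add_of_lt h
        rw [hd, pow_add, pow_add]
        have : (2 : ℝ) ^ c * (1 / 2) ^ c = 1 := by
          rw [← mul_pow]; norm_num
        have h2 : (1 : ℝ) ≤ 2 ^ d := one_le_pow₀ (by norm_num)
        nlinarith [this, h2]
      simpa using h1
    · positivity
  refine hle.trans (le_of_eq ?_)
  rw [← Finset.mul_sum, hkey, hg, mul_pow, ← pow_mul]
  have hcard : Fintype.card I * k ≤ Fintype.card E := by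
    rw [hk, ← Fintype.card_prod]
    exact Fintype.card_le_of_injective φ hφ
  have h5 : (2 : ℝ) ^ Fintype.card E
      = 2 ^ (k * Fintype.card I) * 2 ^ (Fintype.card E - Fintype.card I * k) := by
    rw [← pow_add]
    congr 1
    rw [mul_comm k]
    omega
  rw [h5]
  ring

end Pool.Agent.Q281.IPS
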