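import Mathlib
import Pool.Agent.Q281.IPS.Prob

/-!
The uniform random graph: tail bounds for edges, union bound.
-/

open Filter Topology

namespace Pool.Agent.Q281.IPS

/-- Off-diagonal pairs. -/
abbrev EE (V : Type) : Type := {e : Sym2 V // ¬ e.IsDiag}

/-- The graph of a family of bits. -/
def ofBits {V : Type} (f : EE V → Bool) : SimpleGraph V :=
  SimpleGraph.fromEdgeSet {e | ∃ h : ¬ e.IsDiag, f ⟨e, h⟩ = true}

lemma mem_ofBits {V : Type} (f : EE V → Bool) (e : EE V) :
    e.1 ∈ (ofBits f).edgeSet ↔ f e = true := by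
  unfold ofBits
  rw [SimpleGraph.edgeSet_fromEdgeSet]
  constructor
  · rintro ⟨⟨h, h1⟩, -⟩
    exact h1
  · intro h
    exact ⟨⟨e.2, h⟩, e.2⟩

open Classical in
/-- Graphs are families of bits. -/
noncomputable def bitsEquiv (V : Type) : (EE V → Bool) ≃ SimpleGraph V where
  toFun := ofBits
  invFun G := fun e => decide (e.1 ∈ G.edgeSet)
  left_inv f := by
    funext e
    by_cases h : f e = true
    · simp [mem_ofBits, h]
    · simp [mem_ofBits, h]
  right_inv G := by
    have : (ofBits fun e => decide (e.1 ∈ G.edgeSet)).edgeSet = G.edgeSet := by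
      ext e
      by_cases hd : e.IsDiag
      · constructor
        · intro h
          exact absurd hd (SimpleGraph.not_isDiag_of_mem_edgeSet _ h)
        · intro h
          exact absurd hd (SimpleGraph.not_isDiag_of_mem_edgeSet _ h)
      · have := mem_ofBits (fun e : EE V => decide (e.1 ∈ G.edgeSet)) ⟨e, hd⟩
        rw [this]
        simp
    exact SimpleGraph.edgeSet_injective this

lemma card_graphs (n : ℕ) :
    (Nat.card (SimpleGraph (Fin n)) : ℝ) = 2 ^ Fintype.card (EE (Fin n)) := by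
  classical
  rw [← Nat.card_congr (bitsEquiv (Fin n)), Nat.card_eq_fintype_card, Fintype.card_fun,
    Fintype.card_bool]
  push_cast
  rfl

lemma pr_eq (n : ℕ) (Q : SimpleGraph (Fin n) → Prop) [DecidablePred fun f => Q (ofBits f)] :
    pr n Q = ((Finset.univ.filter (fun f : EE (Fin n) → Bool => Q (ofBits f))).card : ℝ)
      / 2 ^ Fintype.card (EE (Fin n)) := by
  classical
  unfold pr
  rw [card_graphs]
  congr 2
  rw [← Fintype.card_subtype, ← Nat.card_eq_fintype_card]
  exact (Nat.card_congr ((bitsEquiv (Fin n)).subtypeEquiv (fun f => Iff.rfl))).symm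

lemma pr_nonneg (n : ℕ) (Q : SimpleGraph (Fin n) → Prop) : 0 ≤ pr n Q := by
  unfold pr; positivity

lemma pr_mono {n : ℕ} {Q R : SimpleGraph (Fin n) → Prop} (h : ∀ G, Q G → R G) :
    pr n Q ≤ pr n R := by
  classical
  rw [pr_eq, pr_eq]
  apply div_le_div_of_nonneg_right _ (by positivity)
  exact_mod_cast Finset.card_le_card (Finset.monotone_filter_right _ (fun f _ hf => h _ hf))

lemma pr_or {n : ℕ} (Q R : SimpleGraph (Fin n) → Prop) :
    pr n (fun G => Q G ∨ R G) ≤ pr n Q + pr n R := by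
  classical
  rw [pr_eq, pr_eq, pr_eq, ← add_div]
  apply div_le_div_of_nonneg_right _ (by positivity)
  rw [Finset.filter_or]
  exact_mod_cast Finset.card_union_le _ _

lemma pr_exists {n : ℕ} {ι : Type} (s : Finset ι) (Q : ι → SimpleGraph (Fin n) → Prop) :
    pr n (fun G => ∃ i ∈ s, Q i G) ≤ ∑ i ∈ s, pr n (Q i) := by
  classical
  induction s using Finset.induction_on with
  | empty =>
    simp only [Finset.notMem_empty, false_and, exists_false, Finset.sum_empty]
    rw [pr_eq]
    simp
  | insert a s ha ih =>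
    rw [Finset.sum_insert ha]
    refine le_trans (pr_mono ?_) ((pr_or (Q a) (fun G => ∃ i ∈ s, Q i G)).trans
      (add_le_add le_rfl ih))
    rintro G ⟨i, hi, hQ⟩
    rw [Finset.mem_insert] at hi
    rcases hi with rfl | hi
    · exact Or.inl hQ
    · exact Or.inr ⟨i, hi, hQ⟩

lemma pr_compl {n : ℕ} (Q : SimpleGraph (Fin n) → Prop) :
    pr n Q = 1 - pr n (fun G => ¬ Q G) := by
  classical
  rw [pr_eq, pr_eq, eq_sub_iff_add_eq, ← add_div, div_eq_one_iff_eq (by positivity)]
  have := Finset.card_filter_add_card_filter_not (s := (Finset.univ : Finset (EE (Fin n) → Bool)))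
    (fun f => Q (ofBits f))
  have h2 : (Finset.univ : Finset (EE (Fin n) → Bool)).card = 2 ^ Fintype.card (EE (Fin n)) := by
    rw [Finset.card_univ, Fintype.card_fun, Fintype.card_bool]
  rw [h2] at this
  exact_mod_cast this

open Classical in
/-- Tail bound for blocks of edges. -/
lemma tail_graph {n : ℕ} {I J : Type} [Fintype I] [Fintype J]
    (a : I × J → Sym2 (Fin n)) (hd : ∀ x, ¬ (a x).IsDiag) (ha : Function.Injective a)
    (t : J → Bool) (m : ℕ) :
    pr n (fun G => (Finset.univ.filter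
        (fun i : I => ∀ j, (a (i, j) ∈ G.edgeSet ↔ t j = true))).card < m)
      ≤ 2 ^ m * (1 - 1 / 2 ^ (Fintype.card J + 1)) ^ Fintype.card I := by
  classical
  rw [pr_eq, div_le_iff₀ (by positivity)]
  have h := tail_bits (E := EE (Fin n)) (fun x : I × J => ⟨a x, hd x⟩)
    (fun x y hxy => ha (congrArg Subtype.val hxy)) t m
  refine le_trans (le_of_eq ?_) h
  congr 2
  ext f
  simp only [Finset.mem_filter, Finset.mem_univ, true_and]
  have : ∀ i : I, (∀ j, (a (i, j) ∈ (ofBits f).edgeSet ↔ t j = true)) ↔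
      (∀ j, f ⟨a (i, j), hd (i, j)⟩ = t j) := by
    intro i
    refine forall_congr' fun j => ?_
    rw [mem_ofBits f ⟨a (i, j), hd (i, j)⟩]
    exact Bool.eq_iff_iff.symm
  simp only [this]

open Classical in
/-- Tail bound for a set of pairs. -/
lemma tail_set {n : ℕ} (D : Finset (Sym2 (Fin n))) (hd : ∀ e ∈ D, ¬ e.IsDiag) (b : Bool)
    (m : ℕ) :
    pr n (fun G => (D.filter (fun e => (e ∈ G.edgeSet ↔ b = true))).card < m)
      ≤ 2 ^ m * (3 / 4) ^ D.card := by
  have h := tail_graph (I := {e // e ∈ D}) (J := Unit) (fun x => x.1.1)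
    (fun x => hd _ x.1.2) (by
      rintro ⟨⟨x, hx⟩, ⟨⟩⟩ ⟨⟨y, hy⟩, ⟨⟩⟩ hxy
      simp only at hxy
      subst hxy
      rfl) (fun _ => b) m
  have h2 : (1 - 1 / 2 ^ (Fintype.card Unit + 1) : ℝ) = 3 / 4 := by norm_num
  rw [h2, Fintype.card_coe] at h
  refine le_trans (pr_mono ?_) h
  intro G hG
  refine lt_of_le_of_lt (le_of_eq ?_) hG
  rw [← Finset.card_map ⟨Subtype.val, Subtype.val_injective⟩]
  congr 1
  ext e
  simp only [Finset.mem_map, Finset.mem_filter, Finset.mem_univ, true_and,
    Function.Embedding.coeFn_mk, Subtype.exists, exists_and_right, exists_eq_right]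
  constructor
  · rintro ⟨he, h1⟩
    exact ⟨he, h1 ()⟩
  · rintro ⟨he, h1⟩
    exact ⟨he, fun _ => h1⟩

end Pool.Agent.Q281.IPS
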