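import Mathlib
import Pool.Agent.Q281.IPS.Graph

/-!
Events that hold with probability tending to 1.
-/

open Filter Topology

namespace Pool.Agent.Q281.IPS

/-- With high probability. -/
def Whp (Q : ∀ n, SimpleGraph (Fin n) → Prop) : Prop :=
  Tendsto (fun n => pr n (fun G => ¬ Q n G)) atTop (𝓝 0)

lemma Whp.and {Q R : ∀ n, SimpleGraph (Fin n) → Prop} (hQ : Whp Q) (hR : Whp R) :
    Whp (fun n G => Q n G ∧ R n G) := by
  have h := hQ.add hR
  rw [add_zero] at h
  refine tendsto_of_tendsto_of_tendsto_of_le_of_le tendsto_const_nhds h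
    (fun n => pr_nonneg _ _) (fun n => ?_)
  refine le_trans (pr_mono ?_) (pr_or _ _)
  intro G hG
  by_contra hc
  push Not at hc
  exact hG ⟨hc.1, hc.2⟩

lemma Whp.mono {Q R : ∀ n, SimpleGraph (Fin n) → Prop} (hQ : Whp Q)
    (h : ∀ᶠ n in atTop, ∀ G, Q n G → R n G) : Whp R := by
  refine tendsto_of_tendsto_of_tendsto_of_le_of_le' tendsto_const_nhds hQ
    (Eventually.of_forall fun n => pr_nonneg _ _) ?_
  filter_upwards [h] with n hn
  exact pr_mono (fun G hG hc => hG (hn G hc))

lemma Whp.all_lt {Q : ℕ → ∀ n, SimpleGraph (Fin n) → Prop} (N : ℕ) (h : ∀ K, Whp (Q K)) :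
    Whp (fun n G => ∀ K < N, Q K n G) := by
  induction N with
  | zero =>
    refine (h 0).mono (Eventually.of_forall fun n G _ K hK => absurd hK (by omega))
  | succ N ih =>
    refine (ih.and (h N)).mono (Eventually.of_forall fun n G hG K hK => ?_)
    rcases Nat.lt_succ_iff_lt_or_eq.1 hK with h1 | h1
    · exact hG.1 K h1
    · subst h1; exact hG.2

lemma Whp.tendsto {Q : ∀ n, SimpleGraph (Fin n) → Prop} (h : Whp Q) :
    Tendsto (fun n => pr n (Q n)) atTop (𝓝 1) := by
  have h1 : (fun n => pr n (Q n)) = fun n => 1 - pr n (fun G => ¬ Q n G) := by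
    funext n; exact pr_compl _
  rw [h1]
  have := (tendsto_const_nhds (x := (1 : ℝ))).sub h
  simpa using this

open Classical in
/-- Number of witnesses of a pattern. -/
noncomputable def wit {V : Type} [Fintype V] {K : ℕ} (G : SimpleGraph V) (u : Fin K → V)
    (t : Fin K → Bool) : Finset V :=
  Finset.univ.filter (fun z => (∀ j, z ≠ u j) ∧ ∀ j, (G.Adj z (u j) ↔ t j = true))

lemma pr_wit {n K : ℕ} (u : Fin K → Fin n) (hu : Function.Injective u) (t : Fin K → Bool)
    (m : ℕ) :
    pr n (fun G => (wit G u t).card < m) ≤ 2 ^ m * (1 - 1 / 2 ^ (K + 1)) ^ (n - K) := by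
  classical
  have h := tail_graph (n := n) (I := {z : Fin n // ¬ z ∈ Set.range u}) (J := Fin K)
    (fun x => s(x.1.1, u x.2)) (by
      rintro ⟨⟨z, hz⟩, j⟩ h
      simp only [Sym2.mk_isDiag_iff] at h
      exact hz ⟨j, h.symm⟩) (by
      rintro ⟨⟨z, hz⟩, j⟩ ⟨⟨z', hz'⟩, j'⟩ h
      simp only [Sym2.eq_iff] at h
      rcases h with ⟨h1, h2⟩ | ⟨h1, h2⟩
      · subst h1
        rw [hu h2]
      · exact absurd ⟨j', h1.symm⟩ hz) t m
  have hc : Fintype.card {z : Fin n // ¬ z ∈ Set.range u} = n - K := by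
    rw [Fintype.card_subtype_compl, Fintype.card_fin]
    congr 1
    have := Set.card_range_of_injective hu
    rw [Fintype.card_fin] at this
    exact this
  rw [hc, Fintype.card_fin] at h
  refine le_trans (pr_mono ?_) h
  intro G hG
  refine lt_of_le_of_lt (le_of_eq ?_) hG
  rw [← Finset.card_map ⟨Subtype.val, Subtype.val_injective⟩]
  congr 1
  ext z
  simp only [wit, Finset.mem_map, Finset.mem_filter, Finset.mem_univ, true_and,
    Function.Embedding.coeFn_mk, Subtype.exists, exists_and_right, exists_eq_right,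
    SimpleGraph.mem_edgeSet, Set.mem_range, not_exists]
  constructor
  · rintro ⟨h1, h2⟩
    exact ⟨fun j hj => h1 j hj.symm, h2⟩
  · rintro ⟨h1, h2⟩
    exact ⟨fun j hj => h1 j hj.symm, h2⟩

lemma two_pow_le (A n : ℕ) (hA : 0 < A) : (2 : ℝ) ^ (n / A) ≤ (1 + 1 / (A : ℝ)) ^ n := by
  have hA' : (0 : ℝ) < A := by exact_mod_cast hA
  have h1 : (2 : ℝ) ≤ (1 + 1 / (A : ℝ)) ^ A := by
    have := one_add_mul_le_pow (a := 1 / (A : ℝ)) (by
      have : 0 < 1 / (A : ℝ) := by positivity
      linarith) A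
    have h2 : (A : ℝ) * (1 / A) = 1 := by field_simp
    linarith
  calc (2 : ℝ) ^ (n / A) ≤ ((1 + 1 / (A : ℝ)) ^ A) ^ (n / A) :=
        pow_le_pow_left₀ (by norm_num) h1 _
    _ = (1 + 1 / (A : ℝ)) ^ (A * (n / A)) := by rw [pow_mul]
    _ ≤ (1 + 1 / (A : ℝ)) ^ n := by
        apply pow_le_pow_right₀
        · have : 0 < 1 / (A : ℝ) := by positivity
          linarith
        · exact Nat.mul_div_le n A

/-- Many witnesses for all patterns of size `K`. -/
def ManyWit (K : ℕ) (n : ℕ) (G : SimpleGraph (Fin n)) : Prop :=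
  ∀ u : Fin K → Fin n, Function.Injective u → ∀ t : Fin K → Bool,
    n ≤ 2 ^ (K + 1) * (wit G u t).card

lemma whp_manyWit (K : ℕ) : Whp (ManyWit K) := by
  classical
  set A : ℕ := 2 ^ (K + 1) with hA
  have hApos : 0 < A := by positivity
  set ε : ℝ := 1 / (A : ℝ) with hε
  have hε0 : 0 < ε := by positivity
  have hε1 : ε ≤ 1 / 2 := by
    rw [hε]
    apply one_div_le_one_div_of_le (by norm_num)
    rw [hA]
    push_cast
    calc (2 : ℝ) = 2 ^ 1 := by norm_num
      _ ≤ 2 ^ (K + 1) := pow_le_pow_right₀ (by norm_num) (by omega)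
  have hbound : ∀ᶠ n in atTop, pr n (fun G => ¬ ManyWit K n G) ≤
      (2 ^ (2 * K + 1)) * ((n : ℝ) ^ K * (1 - ε ^ 2) ^ n) := by
    filter_upwards [eventually_ge_atTop K] with n hn
    let s : Finset ((Fin K → Fin n) × (Fin K → Bool)) :=
      Finset.univ.filter (fun x => Function.Injective x.1)
    have h1 : pr n (fun G => ¬ ManyWit K n G) ≤
        ∑ x ∈ s, pr n (fun G => (wit G x.1 x.2).card < n / A + 1) := by
      refine le_trans (pr_mono ?_) (pr_exists s _)
      intro G hG
      unfold ManyWit at hG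
      push Not at hG
      obtain ⟨u, hu, t, ht⟩ := hG
      refine ⟨(u, t), by simp [s, hu], ?_⟩
      have h2 : A * (wit G u t).card < n := ht
      have h3 : (wit G u t).card ≤ n / A := by
        rw [Nat.le_div_iff_mul_le hApos]
        rw [mul_comm]
        exact h2.le
      exact Nat.lt_succ_of_le h3
    refine h1.trans ?_
    have h4 : ∀ x ∈ s, pr n (fun G => (wit G x.1 x.2).card < n / A + 1)
        ≤ 2 ^ (K + 1) * (1 - ε ^ 2) ^ n := by
      intro x hx
      have hinj : Function.Injective x.1 := (Finset.mem_filter.1 hx).2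
      refine (pr_wit x.1 hinj x.2 _).trans ?_
      have e1 : (1 - 1 / 2 ^ (K + 1) : ℝ) = 1 - ε := by
        rw [hε, hA]; push_cast; ring
      rw [e1]
      have e2 : (1 - ε) ^ (n - K) ≤ 2 ^ K * (1 - ε) ^ n := by
        have e3 : (1 - ε) ^ n = (1 - ε) ^ (n - K) * (1 - ε) ^ K := by
          rw [← pow_add]; congr 1; omega
        rw [e3]
        have e4 : (1 : ℝ) ≤ 2 ^ K * (1 - ε) ^ K := by
          rw [← mul_pow]
          exact one_le_pow₀ (by linarith)
        have e5 : 0 ≤ (1 - ε) ^ (n - K) := pow_nonneg (by linarith) _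
        nlinarith
      have e6 : (2 : ℝ) ^ (n / A + 1) ≤ 2 * (1 + ε) ^ n := by
        rw [pow_succ]
        have := two_pow_le A n hApos
        rw [hε]
        linarith
      calc (2 : ℝ) ^ (n / A + 1) * (1 - ε) ^ (n - K)
          ≤ (2 * (1 + ε) ^ n) * (2 ^ K * (1 - ε) ^ n) := by
            apply mul_le_mul e6 e2
            · exact pow_nonneg (by linarith) _
            · positivity
        _ = 2 ^ (K + 1) * ((1 + ε) * (1 - ε)) ^ n := by
            rw [mul_pow, pow_succ]; ring
        _ = 2 ^ (K + 1) * (1 - ε ^ 2) ^ n := by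
            congr 2; ring
    refine (Finset.sum_le_sum h4).trans ?_
    rw [Finset.sum_const, nsmul_eq_mul]
    have h5 : (s.card : ℝ) ≤ (n : ℝ) ^ K * 2 ^ K := by
      have : s.card ≤ Fintype.card ((Fin K → Fin n) × (Fin K → Bool)) := by
        exact (Finset.card_le_univ s)
      rw [Fintype.card_prod, Fintype.card_fun, Fintype.card_fun, Fintype.card_fin,
        Fintype.card_fin, Fintype.card_bool] at this
      exact_mod_cast this
    have h6 : 0 ≤ (1 - ε ^ 2) ^ n := pow_nonneg (by nlinarith) _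
    calc (s.card : ℝ) * (2 ^ (K + 1) * (1 - ε ^ 2) ^ n)
        ≤ ((n : ℝ) ^ K * 2 ^ K) * (2 ^ (K + 1) * (1 - ε ^ 2) ^ n) := by
          apply mul_le_mul_of_nonneg_right h5 (by positivity)
      _ = (2 ^ (2 * K + 1)) * ((n : ℝ) ^ K * (1 - ε ^ 2) ^ n) := by
          rw [show 2 * K + 1 = K + (K + 1) by ring, pow_add]; ring
  have hlim : Tendsto (fun n : ℕ => (2 ^ (2 * K + 1) : ℝ) * ((n : ℝ) ^ K * (1 - ε ^ 2) ^ n))
      atTop (𝓝 0) := by
    have := (tendsto_pow_const_mul_const_pow_of_abs_lt_one K (r := 1 - ε ^ 2) (by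
      rw [abs_lt]; constructor <;> nlinarith)).const_mul (2 ^ (2 * K + 1) : ℝ)
    simpa using this
  exact tendsto_of_tendsto_of_tendsto_of_le_of_le' tendsto_const_nhds hlim
    (Eventually.of_forall fun n => pr_nonneg _ _) hbound

open Classical in
/-- The nonadjacent pairs inside `S`. -/
noncomputable def nonadj {V : Type} (G : SimpleGraph V) (S : Finset V) : Finset (Sym2 V) :=
  (S.offDiag.image Sym2.mk.uncurry).filter (fun e => ¬ e ∈ G.edgeSet)

/-- All large sets have many nonadjacent pairs. -/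
def ManyNonadj (B : ℕ) (n : ℕ) (G : SimpleGraph (Fin n)) : Prop :=
  ∀ S : Finset (Fin n), n ≤ B * S.card → 3 * n ≤ (nonadj G S).card

open Classical in
/-- Large disjoint sets have many edges between them. -/
def ManyBetween (B : ℕ) (n : ℕ) (G : SimpleGraph (Fin n)) : Prop :=
  ∀ X S : Finset (Fin n), Disjoint X S → n ≤ B * X.card → n ≤ B * S.card →
    ∃ w ∈ X, n ≤ (4 * B ^ 2) * (S.filter (fun z => G.Adj w z)).card

end Pool.Agent.Q281.IPS
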