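import Mathlib
import Pool.Agent.Q281.IPS.Whp

/-!
Growing an irreducible partial path system.
-/

namespace Pool.Agent.Q281.IPS

lemma mem_nonadj_elim {V : Type} {G : SimpleGraph V} {S : Finset V} {e : Sym2 V}
    (he : e ∈ nonadj G S) : ∃ u v, e = s(u, v) ∧ u ∈ S ∧ v ∈ S ∧ u ≠ v ∧ ¬ G.Adj u v := by
  classical
  unfold nonadj at he
  rw [Finset.mem_filter, Finset.mem_image] at he
  obtain ⟨⟨⟨u, v⟩, huv, rfl⟩, hna⟩ := he
  rw [Finset.mem_offDiag] at huv
  exact ⟨u, v, rfl, huv.1, huv.2.1, huv.2.2, hna⟩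

lemma mem_wit {V : Type} [Fintype V] {K : ℕ} {G : SimpleGraph V} {u : Fin K → V}
    {t : Fin K → Bool} {z : V} :
    z ∈ wit G u t ↔ (∀ j, z ≠ u j) ∧ ∀ j, (G.Adj z (u j) ↔ t j = true) := by
  classical
  unfold wit
  rw [Finset.mem_filter]
  simp

variable {V : Type} [Fintype V] [DecidableEq V]

/-- A partial assignment of middle vertices which is irreducible on `T`. -/
structure St (G : SimpleGraph V) (F : Finset V) (mid0 : Sym2 V → V)
    (T : Finset V) (U : Finset (Sym2 V)) (mid : Sym2 V → V) : Prop where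
  irr : ∀ A : Set V, (∀ u v, s(u, v) ∈ U → u ∈ A → v ∈ A → mid s(u, v) ∈ A) →
    (∀ u v, s(u, v) ∈ U → u ∉ A → v ∉ A → mid s(u, v) ∉ A) →
    (∀ x ∈ T, x ∈ A) ∨ (∀ x ∈ T, x ∉ A)
  sub : ∀ u v, s(u, v) ∈ U → u ∈ T ∧ v ∈ T
  ok : ∀ u v, s(u, v) ∈ U → u ≠ v ∧ ¬ G.Adj u v ∧ G.Adj u (mid s(u, v)) ∧
    G.Adj v (mid s(u, v)) ∧ ¬ (u ∈ F ∧ v ∈ F)
  res : ∀ u ∈ F, ∀ v ∈ F, mid s(u, v) = mid0 s(u, v)
  card : U.card ≤ T.card + 4

omit [Fintype V] in
lemma St.step {G : SimpleGraph V} {F : Finset V} {mid0 : Sym2 V → V}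
    {T : Finset V} {U : Finset (Sym2 V)} {mid : Sym2 V → V} (h : St G F mid0 T U mid)
    {u v w : V} (hu : u ∈ T) (hv : v ∈ T) (huv : u ≠ v) (hna : ¬ G.Adj u v)
    (hU : s(u, v) ∉ U) (hF : ¬ (u ∈ F ∧ v ∈ F)) (hw : w ∉ T) (h1 : G.Adj u w)
    (h2 : G.Adj v w) :
    St G F mid0 (insert w T) (insert s(u, v) U) (Function.update mid s(u, v) w) := by
  have hmid : ∀ e ∈ U, Function.update mid s(u, v) w e = mid e := by
    intro e he
    apply Function.update_of_ne
    rintro rfl
    exact hU he
  refine ⟨?_, ?_, ?_, ?_, ?_⟩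
  · intro A hA hB
    have h3 := h.irr A
      (fun a b hab ha hb => by
        have := hA a b (Finset.mem_insert_of_mem hab) ha hb
        rwa [hmid _ hab] at this)
      (fun a b hab ha hb => by
        have := hB a b (Finset.mem_insert_of_mem hab) ha hb
        rwa [hmid _ hab] at this)
    rcases h3 with h3 | h3
    · left
      intro x hx
      rw [Finset.mem_insert] at hx
      rcases hx with rfl | hx
      · have := hA u v (Finset.mem_insert_self _ _) (h3 u hu) (h3 v hv)
        rwa [Function.update_self] at this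
      · exact h3 x hx
    · right
      intro x hx
      rw [Finset.mem_insert] at hx
      rcases hx with rfl | hx
      · have := hB u v (Finset.mem_insert_self _ _) (h3 u hu) (h3 v hv)
        rwa [Function.update_self] at this
      · exact h3 x hx
  · intro a b hab
    rw [Finset.mem_insert] at hab
    rcases hab with hab | hab
    · rw [Sym2.eq_iff] at hab
      rcases hab with ⟨rfl, rfl⟩ | ⟨rfl, rfl⟩
      · exact ⟨Finset.mem_insert_of_mem hu, Finset.mem_insert_of_mem hv⟩
      · exact ⟨Finset.mem_insert_of_mem hv, Finset.mem_insert_of_mem hu⟩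
    · have := h.sub a b hab
      exact ⟨Finset.mem_insert_of_mem this.1, Finset.mem_insert_of_mem this.2⟩
  · intro a b hab
    rw [Finset.mem_insert] at hab
    rcases hab with hab | hab
    · rw [hab, Function.update_self]
      rw [Sym2.eq_iff] at hab
      rcases hab with ⟨rfl, rfl⟩ | ⟨rfl, rfl⟩
      · exact ⟨huv, hna, h1, h2, hF⟩
      · exact ⟨huv.symm, fun hc => hna hc.symm, h2, h1, fun hc => hF ⟨hc.2, hc.1⟩⟩
    · rw [hmid _ hab]
      exact h.ok a b hab
  · intro a ha b hb
    rw [Function.update_of_ne]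
    · exact h.res a ha b hb
    · intro hab
      rw [Sym2.eq_iff] at hab
      rcases hab with ⟨rfl, rfl⟩ | ⟨rfl, rfl⟩
      · exact hF ⟨ha, hb⟩
      · exact hF ⟨hb, ha⟩
  · rw [Finset.card_insert_of_notMem hU, Finset.card_insert_of_notMem hw]
    have := h.card
    omega

/-- First stage. -/
lemma grow1 {G : SimpleGraph V} {F : Finset V} {mid0 : Sym2 V → V} {N : ℕ}
    (hwit : ∀ u : Fin 3 → V, Function.Injective u → ∀ t : Fin 3 → Bool,
      N ≤ (wit G u t).card)
    (h0 : ∃ T U mid, St G F mid0 T U mid ∧ T.card = 9 ∧ Disjoint T F ∧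
      ∃ u ∈ T, ∃ v ∈ T, u ≠ v ∧ ¬ G.Adj u v ∧ s(u, v) ∉ U)
    (k : ℕ) (hk : 9 ≤ k) (hkN : k + F.card ≤ N) :
    ∃ T U mid, St G F mid0 T U mid ∧ T.card = k ∧ Disjoint T F ∧
      ∃ u ∈ T, ∃ v ∈ T, u ≠ v ∧ ¬ G.Adj u v ∧ s(u, v) ∉ U := by
  classical
  induction k, hk using Nat.le_induction with
  | base => exact h0
  | succ k hk ih =>
    obtain ⟨T, U, mid, hSt, hcard, hdis, u, hu, v, hv, huv, hna, hU⟩ := ih (by omega)
    -- a third vertex
    obtain ⟨x, hx, hxn⟩ : ∃ x ∈ T, x ∉ ({u, v} : Finset V) := by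
      apply Finset.exists_mem_notMem_of_card_lt_card
      have : ({u, v} : Finset V).card ≤ 2 := Finset.card_le_two
      omega
    simp only [Finset.mem_insert, Finset.mem_singleton, not_or] at hxn
    let a : Fin 3 → V := ![u, v, x]
    have ha : Function.Injective a := by
      intro i j hij
      fin_cases i <;> fin_cases j <;> simp [a] at hij ⊢ <;> first | exact absurd hij huv | exact absurd hij.symm huv | exact absurd hij hxn.1 | exact absurd hij.symm hxn.1 | exact absurd hij hxn.2 | exact absurd hij.symm hxn.2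
    obtain ⟨w, hw, hwn⟩ : ∃ w ∈ wit G a ![true, true, false], w ∉ T ∪ F := by
      apply Finset.exists_mem_notMem_of_card_lt_card
      have h1 := hwit a ha ![true, true, false]
      have h2 := Finset.card_union_le T F
      omega
    obtain ⟨hne, hadj⟩ := mem_wit.1 hw
    have hwT : w ∉ T := fun hc => hwn (Finset.mem_union_left _ hc)
    have hwF : w ∉ F := fun hc => hwn (Finset.mem_union_right _ hc)
    have e1 : G.Adj w u := by have := (hadj 0).2 rfl; simpa [a] using this
    have e2 : G.Adj w v := by have := (hadj 1).2 rfl; simpa [a] using this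
    have e3 : ¬ G.Adj w x := by
      intro hc
      have := (hadj 2).1 (by simpa [a] using hc)
      simp at this
    have huF : u ∉ F := Finset.disjoint_left.1 hdis hu
    have hstep := hSt.step hu hv huv hna hU (fun hc => huF hc.1) hwT e1.symm e2.symm
    refine ⟨_, _, _, hstep, ?_, ?_, w, Finset.mem_insert_self _ _, x,
      Finset.mem_insert_of_mem hx, ?_, e3, ?_⟩
    · rw [Finset.card_insert_of_notMem hwT, hcard]
    · rw [Finset.disjoint_insert_left]
      exact ⟨hwF, hdis⟩
    · rintro rfl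
      exact hwT hx
    · intro hc
      rw [Finset.mem_insert] at hc
      rcases hc with hc | hc
      · rw [Sym2.eq_iff] at hc
        rcases hc with ⟨h3, h4⟩ | ⟨h3, h4⟩
        · exact hxn.2 h4
        · exact hxn.1 h4
      · exact hwT (hSt.sub w x hc).1

open Classical in
/-- Second stage. -/
lemma grow2 {G : SimpleGraph V} {F : Finset V} {mid0 : Sym2 V → V} {k0 : ℕ}
    (hF : F.card ≤ 8)
    (hex : ∀ T : Finset V, k0 ≤ T.card → T ≠ Finset.univ → ∃ w, w ∉ T ∧
      T.card + 68 < (nonadj G (T.filter (fun z => G.Adj w z))).card)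
    (d : ℕ) : ∀ T U mid, St G F mid0 T U mid → k0 ≤ T.card → (Finset.univ \ T).card = d →
    ∃ U' mid', St G F mid0 Finset.univ U' mid' := by
  induction d with
  | zero =>
    intro T U mid hSt _ hd
    have : T = Finset.univ := by
      rw [Finset.card_eq_zero, Finset.sdiff_eq_empty_iff_subset] at hd
      exact Finset.univ_subset_iff.1 hd
    subst this
    exact ⟨U, mid, hSt⟩
  | succ d ih =>
    intro T U mid hSt hk hd
    have hne : T ≠ Finset.univ := by
      rintro rfl
      simp at hd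
    obtain ⟨w, hwT, hcard⟩ := hex T hk hne
    obtain ⟨e, he, hen⟩ : ∃ e ∈ nonadj G (T.filter (fun z => G.Adj w z)),
        e ∉ U ∪ (F ×ˢ F).image Sym2.mk.uncurry := by
      apply Finset.exists_mem_notMem_of_card_lt_card
      have h1 := Finset.card_union_le U ((F ×ˢ F).image Sym2.mk.uncurry)
      have h2 : ((F ×ˢ F).image Sym2.mk.uncurry).card ≤ 64 := by
        refine Finset.card_image_le.trans ?_
        rw [Finset.card_product]
        nlinarith
      have h3 := hSt.card
      omega
    obtain ⟨u, v, rfl, hu, hv, huv, hna⟩ := mem_nonadj_elim he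
    rw [Finset.mem_filter] at hu hv
    obtain ⟨hu, hwu⟩ := hu
    obtain ⟨hv, hwv⟩ := hv
    simp only [Finset.mem_union, not_or] at hen
    have hF2 : ¬ (u ∈ F ∧ v ∈ F) := by
      rintro ⟨h1, h2⟩
      exact hen.2 (Finset.mem_image.2 ⟨(u, v), Finset.mem_product.2 ⟨h1, h2⟩, rfl⟩)
    have hstep := hSt.step hu hv huv hna hen.1 hF2 hwT hwu.symm hwv.symm
    refine ih _ _ _ hstep ?_ ?_
    · rw [Finset.card_insert_of_notMem hwT]; omega
    · have : Finset.univ \ insert w T = (Finset.univ \ T).erase w := by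
        ext x
        simp only [Finset.mem_sdiff, Finset.mem_univ, true_and, Finset.mem_insert, not_or,
          Finset.mem_erase]
      rw [this, Finset.card_erase_of_mem (by simp [hwT]), hd]
      omega

end Pool.Agent.Q281.IPS
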