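import Mathlib
import Pool.Agent.Q281.IPS.Defs

/-!
The path system of an assignment of middle vertices, with one path of length three.
-/

namespace Pool.Agent.Q281.IPS

open SimpleGraph

/-- Data for a path system. -/
structure Data {V : Type} (G : SimpleGraph V) (M : Sym2 V → V) (x0 a b y0 : V) : Prop where
  mid : ∀ u v, u ≠ v → ¬ G.Adj u v → s(u, v) ≠ s(x0, y0) →
    G.Adj u (M s(u, v)) ∧ G.Adj (M s(u, v)) v
  e1 : G.Adj x0 a
  e2 : G.Adj a b
  e3 : G.Adj b y0
  n0 : x0 ≠ y0
  n1 : x0 ≠ b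
  n2 : a ≠ y0
  f0 : ¬ G.Adj x0 y0
  f1 : ¬ G.Adj x0 b
  f2 : ¬ G.Adj a y0
  m1 : M s(x0, b) = a
  m2 : M s(a, y0) = b

variable {V : Type} {G : SimpleGraph V} {M : Sym2 V → V} {x0 a b y0 : V}

open Classical in
/-- The list of vertices of the path from `u` to `v`. -/
noncomputable def LL (G : SimpleGraph V) (M : Sym2 V → V) (x0 a b y0 : V) (u v : V) : List V :=
  if u = v then [u] else if G.Adj u v then [u, v] else
    if u = x0 ∧ v = y0 then [x0, a, b, y0] else
      if u = y0 ∧ v = x0 then [y0, b, a, x0] else [u, M s(u, v), v]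

lemma LL_self (u : V) : LL G M x0 a b y0 u u = [u] := by
  unfold LL; simp

lemma LL_adj {u v : V} (h : G.Adj u v) : LL G M x0 a b y0 u v = [u, v] := by
  unfold LL; simp [h, h.ne]

lemma LL_mid {u v : V} (huv : u ≠ v) (h : ¬ G.Adj u v) (h1 : s(u, v) ≠ s(x0, y0)) :
    LL G M x0 a b y0 u v = [u, M s(u, v), v] := by
  have h2 : ¬ (u = x0 ∧ v = y0) := by
    rintro ⟨rfl, rfl⟩; exact h1 rfl
  have h3 : ¬ (u = y0 ∧ v = x0) := by
    rintro ⟨rfl, rfl⟩; exact h1 Sym2.eq_swap
  unfold LL
  rw [if_neg huv, if_neg h, if_neg h2, if_neg h3]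

lemma LL_spec (D : Data G M x0 a b y0) : LL G M x0 a b y0 x0 y0 = [x0, a, b, y0] := by
  unfold LL
  rw [if_neg D.n0, if_neg D.f0, if_pos ⟨rfl, rfl⟩]

lemma LL_spec' (D : Data G M x0 a b y0) : LL G M x0 a b y0 y0 x0 = [y0, b, a, x0] := by
  unfold LL
  rw [if_neg D.n0.symm, if_neg (fun h => D.f0 h.symm),
    if_neg (fun h => D.n0 h.1.symm), if_pos ⟨rfl, rfl⟩]

/-- Case distinction for pairs. -/
lemma cases_pair (_D : Data G M x0 a b y0) (u v : V) :
    u = v ∨ G.Adj u v ∨ (u = x0 ∧ v = y0) ∨ (u = y0 ∧ v = x0) ∨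
      (u ≠ v ∧ ¬ G.Adj u v ∧ s(u, v) ≠ s(x0, y0)) := by
  by_cases h1 : u = v
  · exact Or.inl h1
  by_cases h2 : G.Adj u v
  · exact Or.inr (Or.inl h2)
  by_cases h3 : u = x0 ∧ v = y0
  · exact Or.inr (Or.inr (Or.inl h3))
  by_cases h4 : u = y0 ∧ v = x0
  · exact Or.inr (Or.inr (Or.inr (Or.inl h4)))
  refine Or.inr (Or.inr (Or.inr (Or.inr ⟨h1, h2, ?_⟩)))
  intro h
  rw [Sym2.eq_iff] at h
  rcases h with h | h
  · exact h3 h
  · exact h4 h

lemma LL_reverse (D : Data G M x0 a b y0) (u v : V) :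
    LL G M x0 a b y0 v u = (LL G M x0 a b y0 u v).reverse := by
  rcases cases_pair D u v with rfl | h | ⟨rfl, rfl⟩ | ⟨rfl, rfl⟩ | ⟨h1, h2, h3⟩
  · rw [LL_self]; rfl
  · rw [LL_adj h, LL_adj h.symm]; rfl
  · rw [LL_spec D, LL_spec' D]; rfl
  · rw [LL_spec D, LL_spec' D]; rfl
  · rw [LL_mid h1 h2 h3, LL_mid h1.symm (fun h => h2 h.symm) (by rwa [Sym2.eq_swap]),
      Sym2.eq_swap]
    rfl

lemma exists_walk (D : Data G M x0 a b y0) (u v : V) :
    ∃ p : G.Walk u v, p.support = LL G M x0 a b y0 u v := by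
  rcases cases_pair D u v with rfl | h | ⟨rfl, rfl⟩ | ⟨rfl, rfl⟩ | ⟨h1, h2, h3⟩
  · exact ⟨Walk.nil, by rw [LL_self]; rfl⟩
  · exact ⟨Walk.cons h Walk.nil, by rw [LL_adj h]; rfl⟩
  · exact ⟨Walk.cons D.e1 (Walk.cons D.e2 (Walk.cons D.e3 Walk.nil)), by rw [LL_spec D]; rfl⟩
  · exact ⟨Walk.cons D.e3.symm (Walk.cons D.e2.symm (Walk.cons D.e1.symm Walk.nil)), by
      rw [LL_spec' D]; rfl⟩
  · have h4 := D.mid u v h1 h2 h3
    exact ⟨Walk.cons h4.1 (Walk.cons h4.2 Walk.nil), by rw [LL_mid h1 h2 h3]; rfl⟩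

lemma LL_nodup (D : Data G M x0 a b y0) (u v : V) : (LL G M x0 a b y0 u v).Nodup := by
  rcases cases_pair D u v with rfl | h | ⟨rfl, rfl⟩ | ⟨rfl, rfl⟩ | ⟨h1, h2, h3⟩
  · rw [LL_self]; simp
  · rw [LL_adj h]; simp [h.ne]
  · rw [LL_spec D]
    simp [D.e1.ne, D.n1, D.n0, D.e2.ne, D.n2, D.e3.ne]
  · rw [LL_spec' D]
    simp [D.e1.ne.symm, D.n1.symm, D.n0.symm, D.e2.ne.symm, D.n2.symm, D.e3.ne.symm]
  · rw [LL_mid h1 h2 h3]
    have h4 := D.mid u v h1 h2 h3
    simp [h4.1.ne, h4.2.ne, h1]

/-- The path system. -/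
noncomputable def theSystem (D : Data G M x0 a b y0) : PathSystem G where
  path u v := Classical.choose (exists_walk D u v)
  isPath u v := by
    rw [Walk.isPath_def, Classical.choose_spec (exists_walk D u v)]
    exact LL_nodup D u v
  symm u v := by
    apply Walk.ext_support
    rw [Walk.support_reverse, Classical.choose_spec (exists_walk D u v),
      Classical.choose_spec (exists_walk D v u), LL_reverse D]

lemma support_path (D : Data G M x0 a b y0) (u v : V) :
    ((theSystem D).path u v).support = LL G M x0 a b y0 u v :=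
  Classical.choose_spec (exists_walk D u v)

lemma infix1 {α : Type} {s l t : List α} {c : α} (h : s ++ l ++ t = [c]) (hl : l ≠ []) :
    l = [c] := by
  rcases s with _ | ⟨s1, s⟩
  · rcases l with _ | ⟨l1, l⟩
    · exact absurd rfl hl
    · simp only [List.nil_append, List.cons_append, List.cons.injEq, List.append_eq_nil_iff] at h
      obtain ⟨rfl, rfl, -⟩ := h
      rfl
  · rcases l with _ | ⟨l1, l⟩
    · exact absurd rfl hl
    · simp at h

lemma infix_cons {α : Type} {s l t r : List α} {c : α} (h : s ++ l ++ t = c :: r) (hl : l ≠ []) :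
    (∃ l', l = c :: l' ∧ l' ++ t = r) ∨ (∃ s', s' ++ l ++ t = r) := by
  rcases s with _ | ⟨s1, s⟩
  · left
    rcases l with _ | ⟨l1, l⟩
    · exact absurd rfl hl
    · simp only [List.nil_append, List.cons_append, List.cons.injEq] at h
      exact ⟨l, by rw [h.1], h.2⟩
  · right
    simp only [List.cons_append, List.cons.injEq] at h
    exact ⟨s, h.2⟩

lemma pre_cons {α : Type} {l t r : List α} {c : α} (h : l ++ t = c :: r) :
    l = [] ∨ (∃ l', l = c :: l' ∧ l' ++ t = r) := by
  rcases l with _ | ⟨l1, l⟩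
  · left; rfl
  · right
    simp only [List.cons_append, List.cons.injEq] at h
    exact ⟨l, by rw [h.1], h.2⟩

lemma pre_nil {α : Type} {l t : List α} (h : l ++ t = []) : l = [] :=
  (List.append_eq_nil_iff.1 h).1

lemma infix2 {α : Type} {s l t : List α} {c d : α} (h : s ++ l ++ t = [c, d]) (hl : l ≠ []) :
    l = [c] ∨ l = [d] ∨ l = [c, d] := by
  rcases infix_cons h hl with ⟨l', rfl, h'⟩ | ⟨s', h'⟩
  · rcases pre_cons h' with rfl | ⟨l'', rfl, h''⟩
    · exact Or.inl rfl
    · rw [pre_nil h'']; exact Or.inr (Or.inr rfl)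
  · exact Or.inr (Or.inl (infix1 h' hl))

lemma infix3 {α : Type} {s l t : List α} {c d e : α} (h : s ++ l ++ t = [c, d, e])
    (hl : l ≠ []) :
    l = [c] ∨ l = [c, d] ∨ l = [c, d, e] ∨ l = [d] ∨ l = [e] ∨ l = [d, e] := by
  rcases infix_cons h hl with ⟨l', rfl, h'⟩ | ⟨s', h'⟩
  · rcases pre_cons h' with rfl | ⟨l'', rfl, h''⟩
    · exact Or.inl rfl
    · rcases pre_cons h'' with rfl | ⟨l3, rfl, h3⟩
      · exact Or.inr (Or.inl rfl)
      · rw [pre_nil h3]; exact Or.inr (Or.inr (Or.inl rfl))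
  · exact Or.inr (Or.inr (Or.inr (infix2 h' hl)))

lemma infix4 {α : Type} {s l t : List α} {c d e f : α} (h : s ++ l ++ t = [c, d, e, f])
    (hl : l ≠ []) :
    l = [c] ∨ l = [c, d] ∨ l = [c, d, e] ∨ l = [c, d, e, f] ∨
    l = [d] ∨ l = [d, e] ∨ l = [d, e, f] ∨ l = [e] ∨ l = [f] ∨ l = [e, f] := by
  rcases infix_cons h hl with ⟨l', rfl, h'⟩ | ⟨s', h'⟩
  · rcases pre_cons h' with rfl | ⟨l'', rfl, h''⟩
    · exact Or.inl rfl
    · rcases pre_cons h'' with rfl | ⟨l3, rfl, h3⟩
      · exact Or.inr (Or.inl rfl)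
      · rcases pre_cons h3 with rfl | ⟨l4, rfl, h4⟩
        · exact Or.inr (Or.inr (Or.inl rfl))
        · rw [pre_nil h4]; exact Or.inr (Or.inr (Or.inr (Or.inl rfl)))
  · exact Or.inr (Or.inr (Or.inr (Or.inr (infix3 h' hl))))

lemma ends_of_support {u v : V} (p : G.Walk u v) {l : List V} (h : p.support = l) :
    l.head? = some u ∧ l.getLast? = some v := by
  subst h
  constructor
  · rw [List.head?_eq_some_head p.support_ne_nil, Walk.head_support]
  · rw [List.getLast?_eq_some_getLast p.support_ne_nil, Walk.getLast_support]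

lemma infix_of_append {u x y v : V} (p : G.Walk u x) (q : G.Walk x y) (r : G.Walk y v) :
    ∃ s t, s ++ q.support ++ t = ((p.append q).append r).support := by
  refine ⟨p.support.dropLast, r.support.tail, ?_⟩
  rw [Walk.support_append, Walk.support_append]
  congr 1
  have h1 : p.support = p.support.dropLast ++ [x] := by
    conv_lhs => rw [← List.dropLast_append_getLast p.support_ne_nil, Walk.getLast_support]
  have h2 : x :: q.support.tail = q.support := Walk.cons_tail_support q
  have h3 : p.support.dropLast ++ (x :: q.support.tail)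
      = (p.support.dropLast ++ [x]) ++ q.support.tail := by
    rw [List.append_assoc]; rfl
  rw [← h1, h2] at h3
  exact h3

theorem consistent (D : Data G M x0 a b y0) : (theSystem D).Consistent := by
  intro u v x y p q r h
  apply Walk.ext_support
  rw [support_path]
  obtain ⟨s, t, hst⟩ := infix_of_append p q r
  rw [← h, support_path] at hst
  have hl : q.support ≠ [] := q.support_ne_nil
  have key : ∀ l : List V, q.support = l → l.head? = some x ∧ l.getLast? = some y :=
    fun l hl => ends_of_support q hl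
  have single : ∀ c, q.support = [c] → q.support = LL G M x0 a b y0 x y := by
    intro c hc
    have := key _ hc
    simp only [List.head?_cons, List.getLast?_singleton, Option.some.injEq] at this
    obtain ⟨rfl, rfl⟩ := this
    rw [hc, LL_self]
  have double : ∀ c d, G.Adj c d → q.support = [c, d] → q.support = LL G M x0 a b y0 x y := by
    intro c d hcd hc
    have := key _ hc
    simp only [List.head?_cons, List.getLast?_cons_cons, List.getLast?_singleton,
      Option.some.injEq] at this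
    obtain ⟨rfl, rfl⟩ := this
    rw [hc, LL_adj hcd]
  have triple : ∀ c d e, LL G M x0 a b y0 c e = [c, d, e] → q.support = [c, d, e] →
      q.support = LL G M x0 a b y0 x y := by
    intro c d e hce hc
    have := key _ hc
    simp only [List.head?_cons, List.getLast?_cons_cons, List.getLast?_singleton,
      Option.some.injEq] at this
    obtain ⟨rfl, rfl⟩ := this
    rw [hc, hce]
  have quad : ∀ c d e f, LL G M x0 a b y0 c f = [c, d, e, f] → q.support = [c, d, e, f] →
      q.support = LL G M x0 a b y0 x y := by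
    intro c d e f hce hc
    have := key _ hc
    simp only [List.head?_cons, List.getLast?_cons_cons, List.getLast?_singleton,
      Option.some.injEq] at this
    obtain ⟨rfl, rfl⟩ := this
    rw [hc, hce]
  have t1 : LL G M x0 a b y0 x0 b = [x0, a, b] := by
    rw [LL_mid D.n1 D.f1, D.m1]
    intro hc
    rw [Sym2.eq_iff] at hc
    rcases hc with ⟨-, h1⟩ | ⟨h1, -⟩
    · exact D.e3.ne h1
    · exact D.n0 h1
  have t2 : LL G M x0 a b y0 a y0 = [a, b, y0] := by
    rw [LL_mid D.n2 D.f2, D.m2]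
    intro hc
    rw [Sym2.eq_iff] at hc
    rcases hc with ⟨h1, -⟩ | ⟨h1, -⟩
    · exact D.e1.ne h1.symm
    · exact D.n2 h1
  have t3 : LL G M x0 a b y0 b x0 = [b, a, x0] := by
    rw [LL_reverse D x0 b, t1]; rfl
  have t4 : LL G M x0 a b y0 y0 a = [y0, b, a] := by
    rw [LL_reverse D a y0, t2]; rfl
  rcases cases_pair D u v with rfl | h1 | ⟨rfl, rfl⟩ | ⟨rfl, rfl⟩ | ⟨h1, h2, h3⟩
  · rw [LL_self] at hst
    exact single _ (infix1 hst hl)
  · rw [LL_adj h1] at hst
    rcases infix2 hst hl with h4 | h4 | h4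
    · exact single _ h4
    · exact single _ h4
    · exact double _ _ h1 h4
  · rw [LL_spec D] at hst
    rcases infix4 hst hl with h4 | h4 | h4 | h4 | h4 | h4 | h4 | h4 | h4 | h4
    · exact single _ h4
    · exact double _ _ D.e1 h4
    · exact triple _ _ _ t1 h4
    · exact quad _ _ _ _ (LL_spec D) h4
    · exact single _ h4
    · exact double _ _ D.e2 h4
    · exact triple _ _ _ t2 h4
    · exact single _ h4
    · exact single _ h4
    · exact double _ _ D.e3 h4
  · rw [LL_spec' D] at hst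
    rcases infix4 hst hl with h4 | h4 | h4 | h4 | h4 | h4 | h4 | h4 | h4 | h4
    · exact single _ h4
    · exact double _ _ D.e3.symm h4
    · exact triple _ _ _ t4 h4
    · exact quad _ _ _ _ (LL_spec' D) h4
    · exact single _ h4
    · exact double _ _ D.e2.symm h4
    · exact triple _ _ _ t3 h4
    · exact single _ h4
    · exact single _ h4
    · exact double _ _ D.e1.symm h4
  · have hL := LL_mid (a := a) (b := b) h1 h2 h3 (M := M)
    have hm := D.mid u v h1 h2 h3
    rw [hL] at hst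
    rcases infix3 hst hl with h4 | h4 | h4 | h4 | h4 | h4
    · exact single _ h4
    · exact double _ _ hm.1 h4
    · exact triple _ _ _ hL h4
    · exact single _ h4
    · exact single _ h4
    · exact double _ _ hm.2 h4

/-- Weight of a list of vertices. -/
def wsum (w : Sym2 V → ℝ) : List V → ℝ
  | [] => 0
  | [_] => 0
  | c :: d :: l => w s(c, d) + wsum w (d :: l)

lemma edges_sum (w : Sym2 V → ℝ) {u v : V} (p : G.Walk u v) :
    (p.edges.map w).sum = wsum w p.support := by
  induction p with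
  | nil => rfl
  | cons h p ih =>
    rw [Walk.edges_cons, List.map_cons, List.sum_cons, ih, Walk.support_cons,
      ← Walk.cons_tail_support p]
    rfl

end Pool.Agent.Q281.IPS
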