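import Mathlib
import Pool.Agent.Q281.IPS.Grow
import Pool.Agent.Q281.IPS.System

/-!
The seed graph on 17 vertices: an irreducible seed (vertices 0..8) and a non-metrizable gadget
(vertices 9..16).
-/

namespace Pool.Agent.Q281.IPS

open SimpleGraph

/-- Edges of the seed graph. -/
def edgeL : List (ℕ × ℕ) :=
  [(0,1),(0,2),(0,4),(0,5),(1,2),(1,3),(1,7),(1,8),(2,4),(2,6),(2,7),(2,8),(3,4),(3,5),(3,6),
   (3,7),(4,6),(4,8),(5,6),(5,7),(5,8),(6,8),
   (9,10),(9,14),(10,11),(10,15),(10,16),(11,12),(11,13),(11,15),(12,14),(13,14),(14,15),(14,16)]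

/-- Adjacency in the seed graph. -/
def RR (i j : ℕ) : Bool := edgeL.contains (min i j, max i j)

lemma RR_symm (i j : ℕ) : RR i j = RR j i := by
  unfold RR; rw [min_comm, max_comm]

/-- Pairs with a middle vertex. -/
def midL : List ((ℕ × ℕ) × ℕ) :=
  [((3,8),1),((4,7),3),((2,3),6),((0,6),5),((1,6),8),((6,7),2),((7,8),5),((0,8),4),((1,5),0),
   ((2,5),7),((0,3),1),((1,4),2),((0,7),2),
   ((9,15),14),((9,16),14),((12,13),14),((12,15),14),((13,15),11),((15,16),10),((9,11),10),
   ((10,12),11)]

/-- The middle vertex of a pair. -/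
def mm (i j : ℕ) : ℕ := (midL.lookup (min i j, max i j)).getD 0

lemma mm_symm (i j : ℕ) : mm i j = mm j i := by
  unfold mm; rw [min_comm, max_comm]

lemma mm_lt (i j : ℕ) : mm i j < 17 := by
  unfold mm
  rcases h : midL.lookup (min i j, max i j) with _ | x
  · simp
  · have h1 : ((min i j, max i j), x) ∈ midL := by
      have := List.lookup_eq_some_iff.1 h
      obtain ⟨l1, l2, h2, -⟩ := this
      rw [h2]; simp
    have h2 : ∀ y ∈ midL, y.2 < 17 := by decide
    exact h2 _ h1

lemma embed {V : Type} [Fintype V] {G : SimpleGraph V} (R : ℕ → ℕ → Bool)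
    (hR : ∀ i j, R i j = R j i) (N : ℕ)
    (hext : ∀ K < N, ∀ u : Fin K → V, Function.Injective u → ∀ t, (wit G u t).Nonempty) :
    ∀ k ≤ N, ∃ φ : Fin k → V, Function.Injective φ ∧
      ∀ i j : Fin k, i ≠ j → (G.Adj (φ i) (φ j) ↔ R i j = true) := by
  intro k
  induction k with
  | zero => intro _; exact ⟨Fin.elim0, fun i => i.elim0, fun i => i.elim0⟩
  | succ k ih =>
    intro hk
    obtain ⟨φ, hφ, hadj⟩ := ih (by omega)
    obtain ⟨z, hz⟩ := hext k (by omega) φ hφ (fun j => R k j)
    obtain ⟨hz1, hz2⟩ := mem_wit.1 hz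
    refine ⟨Fin.snoc (α := fun _ => V) φ z, ?_, ?_⟩
    · intro i j
      refine Fin.lastCases ?_ (fun i => ?_) i
      · refine Fin.lastCases ?_ (fun j => ?_) j
        · intro _; rfl
        · intro h
          rw [Fin.snoc_last, Fin.snoc_castSucc] at h
          exact absurd h (hz1 j)
      · refine Fin.lastCases ?_ (fun j => ?_) j
        · intro h
          rw [Fin.snoc_last, Fin.snoc_castSucc] at h
          exact absurd h.symm (hz1 i)
        · intro h
          rw [Fin.snoc_castSucc, Fin.snoc_castSucc] at h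
          rw [hφ h]
    · intro i j
      refine Fin.lastCases ?_ (fun i => ?_) i
      · refine Fin.lastCases ?_ (fun j => ?_) j
        · intro h; exact absurd rfl h
        · intro _
          rw [Fin.snoc_last, Fin.snoc_castSucc, hz2 j]
          simp
      · refine Fin.lastCases ?_ (fun j => ?_) j
        · intro _
          rw [Fin.snoc_last, Fin.snoc_castSucc, G.adj_comm, hz2 i]
          simp [hR k i]
        · intro h
          rw [Fin.snoc_castSucc, Fin.snoc_castSucc, hadj i j (fun hc => h (by rw [hc]))]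
          simp

/-- The middle vertices inside the first seed. -/
def midL9 : List ((Fin 9 × Fin 9) × Fin 9) :=
  [((3,8),1),((4,7),3),((2,3),6),((0,6),5),((1,6),8),((6,7),2),((7,8),5),((0,8),4),((1,5),0),
   ((2,5),7),((0,3),1),((1,4),2),((0,7),2)]

/-- Finite check: the seed is irreducible. -/
lemma seed_check : ∀ f : Fin 9 → Bool,
    (midL9.all (fun p => (f p.1.1 != f p.1.2) || (f p.2 == f p.1.1))) = true →
    ∀ i, f i = f 0 := by
  decide +kernel

end Pool.Agent.Q281.IPS
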