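import Mathlib
import Pool.Agent.Q281.IPS.Whp

/-!
Union bounds over all sets of vertices.
-/

open Filter Topology

namespace Pool.Agent.Q281.IPS

lemma not_diag_offDiag {V : Type} [DecidableEq V] (S : Finset V) (e : Sym2 V)
    (he : e ∈ S.offDiag.image Sym2.mk.uncurry) : ¬ e.IsDiag := by
  rw [Finset.mem_image] at he
  obtain ⟨⟨a, b⟩, hab, rfl⟩ := he
  rw [Finset.mem_offDiag] at hab
  simpa using hab.2.2

lemma card_finsets (n : ℕ) (s : Finset (Finset (Fin n))) : (s.card : ℝ) ≤ 2 ^ n := by
  have : s.card ≤ Fintype.card (Finset (Fin n)) := Finset.card_le_univ s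
  rw [Fintype.card_finset, Fintype.card_fin] at this
  exact_mod_cast this

lemma whp_manyNonadj (B : ℕ) (hB : 0 < B) : Whp (ManyNonadj B) := by
  classical
  have hbound : ∀ᶠ n in atTop, pr n (fun G => ¬ ManyNonadj B n G) ≤ (1 / 2 : ℝ) ^ n := by
    filter_upwards [eventually_ge_atTop (64 * B ^ 2 + 2 * B)] with n hn
    let s : Finset (Finset (Fin n)) := Finset.univ.filter (fun S => n ≤ B * S.card)
    have h1 : pr n (fun G => ¬ ManyNonadj B n G) ≤
        ∑ S ∈ s, pr n (fun G => ((S.offDiag.image Sym2.mk.uncurry).filter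
          (fun e => (e ∈ G.edgeSet ↔ false = true))).card < 3 * n) := by
      refine le_trans (pr_mono ?_) (pr_exists s _)
      intro G hG
      unfold ManyNonadj at hG
      push Not at hG
      obtain ⟨S, hS, hc⟩ := hG
      refine ⟨S, by simp [s, hS], ?_⟩
      refine lt_of_le_of_lt (le_of_eq ?_) hc
      unfold nonadj
      congr 1
      ext e
      simp
    refine h1.trans ?_
    have h2 : ∀ S ∈ s, pr n (fun G => ((S.offDiag.image Sym2.mk.uncurry).filter
          (fun e => (e ∈ G.edgeSet ↔ false = true))).card < 3 * n) ≤ (8 * (3 / 4) ^ 16) ^ n := by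
      intro S hS
      have hS' : n ≤ B * S.card := (Finset.mem_filter.1 hS).2
      refine (tail_set _ (not_diag_offDiag S) false (3 * n)).trans ?_
      rw [Sym2.card_image_offDiag]
      have hc : 16 * n ≤ S.card.choose 2 := by
        set c := S.card with hcdef
        have hc2 : 2 ≤ c := by
          by_contra hlt
          have : B * c ≤ B * 1 := Nat.mul_le_mul_left B (by omega)
          have h3 : 1 ≤ B ^ 2 := Nat.one_le_pow _ _ hB
          nlinarith
        rw [Nat.choose_two_right, Nat.le_div_iff_mul_le (by norm_num)]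
        have h4 : n * n ≤ B ^ 2 * c ^ 2 := by nlinarith
        have h5 : 64 * B ^ 2 * n ≤ n * n := Nat.mul_le_mul_right n (by omega)
        have h6 : B ^ 2 * (64 * n) ≤ B ^ 2 * c ^ 2 := by nlinarith
        have h7 : 64 * n ≤ c ^ 2 := Nat.le_of_mul_le_mul_left h6 (by positivity)
        obtain ⟨d, hd⟩ : ∃ d, c = d + 2 := ⟨c - 2, by omega⟩
        rw [hd] at h7 ⊢
        have : d + 2 - 1 = d + 1 := by omega
        rw [this]
        nlinarith
      calc (2 : ℝ) ^ (3 * n) * (3 / 4) ^ (S.card.choose 2)
          ≤ 2 ^ (3 * n) * (3 / 4) ^ (16 * n) := by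
            apply mul_le_mul_of_nonneg_left _ (by positivity)
            exact pow_le_pow_of_le_one (by norm_num) (by norm_num) hc
        _ = (8 * (3 / 4) ^ 16) ^ n := by
            rw [pow_mul, pow_mul, ← mul_pow]; norm_num
    refine (Finset.sum_le_sum h2).trans ?_
    rw [Finset.sum_const, nsmul_eq_mul]
    calc (s.card : ℝ) * (8 * (3 / 4) ^ 16) ^ n ≤ 2 ^ n * (8 * (3 / 4) ^ 16) ^ n := by
          apply mul_le_mul_of_nonneg_right (card_finsets n s) (by positivity)
      _ = (2 * (8 * (3 / 4) ^ 16)) ^ n := by rw [← mul_pow]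
      _ ≤ (1 / 2 : ℝ) ^ n := by
          apply pow_le_pow_left₀ (by positivity)
          norm_num
  exact tendsto_of_tendsto_of_tendsto_of_le_of_le' tendsto_const_nhds
    (tendsto_pow_atTop_nhds_zero_of_lt_one (by norm_num) (by norm_num))
    (Eventually.of_forall fun n => pr_nonneg _ _) hbound

lemma whp_manyBetween (B : ℕ) (hB : 0 < B) : Whp (ManyBetween B) := by
  classical
  have hbound : ∀ᶠ n in atTop, pr n (fun G => ¬ ManyBetween B n G) ≤ 2 * (1 / 2 : ℝ) ^ n := by
    filter_upwards [eventually_ge_atTop (24 * B ^ 2 + 1)] with n hn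
    let s : Finset (Finset (Fin n) × Finset (Fin n)) :=
      Finset.univ.filter (fun x => Disjoint x.1 x.2 ∧ n ≤ B * x.1.card ∧ n ≤ B * x.2.card)
    set q : ℕ := n ^ 2 / (4 * B ^ 2) with hq
    have hB2 : 0 < 4 * B ^ 2 := by positivity
    let D : Finset (Fin n) × Finset (Fin n) → Finset (Sym2 (Fin n)) := fun x =>
      (x.1 ×ˢ x.2).image Sym2.mk.uncurry
    have h1 : pr n (fun G => ¬ ManyBetween B n G) ≤
        ∑ x ∈ s, pr n (fun G => ((D x).filter
          (fun e => (e ∈ G.edgeSet ↔ true = true))).card < q + 1) := by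
      refine le_trans (pr_mono ?_) (pr_exists s _)
      intro G hG
      unfold ManyBetween at hG
      push Not at hG
      obtain ⟨X, S, hdis, hX, hS, hw⟩ := hG
      refine ⟨(X, S), by simp [s, hdis, hX, hS], ?_⟩
      -- number of edges between
      have h2 : ((D (X, S)).filter (fun e => (e ∈ G.edgeSet ↔ true = true))).card
          ≤ ∑ w ∈ X, (S.filter (fun z => G.Adj w z)).card := by
        have hsub : (D (X, S)).filter (fun e => (e ∈ G.edgeSet ↔ true = true)) ⊆
            X.biUnion (fun w => (S.filter (fun z => G.Adj w z)).image (fun z => s(w, z))) := by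
          intro e he
          simp only [D, Finset.mem_filter, Finset.mem_image, Finset.mem_product, Prod.exists] at he
          obtain ⟨⟨a, b, ⟨ha, hb⟩, rfl⟩, he2⟩ := he
          simp only [iff_true] at he2
          rw [Finset.mem_biUnion]
          refine ⟨a, ha, ?_⟩
          rw [Finset.mem_image]
          exact ⟨b, Finset.mem_filter.2 ⟨hb, he2⟩, rfl⟩
        refine (Finset.card_le_card hsub).trans (Finset.card_biUnion_le.trans ?_)
        exact Finset.sum_le_sum (fun w _ => Finset.card_image_le)
      have h3 : (4 * B ^ 2) * ∑ w ∈ X, (S.filter (fun z => G.Adj w z)).card ≤ n ^ 2 := by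
        rw [Finset.mul_sum]
        calc ∑ w ∈ X, (4 * B ^ 2) * (S.filter (fun z => G.Adj w z)).card
            ≤ ∑ w ∈ X, n := Finset.sum_le_sum (fun w hwX => (hw w hwX).le)
          _ = X.card * n := by rw [Finset.sum_const, smul_eq_mul]
          _ ≤ n ^ 2 := by
              rw [sq]
              apply Nat.mul_le_mul_right
              have := Finset.card_le_univ X
              rwa [Fintype.card_fin] at this
      have h4 : ∑ w ∈ X, (S.filter (fun z => G.Adj w z)).card ≤ q := by
        rw [hq, Nat.le_div_iff_mul_le hB2, mul_comm]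
        exact h3
      exact Nat.lt_succ_of_le (h2.trans h4)
    refine h1.trans ?_
    have h2 : ∀ x ∈ s, pr n (fun G => ((D x).filter
          (fun e => (e ∈ G.edgeSet ↔ true = true))).card < q + 1) ≤ 2 * (1 / 8) ^ n := by
      rintro ⟨X, S⟩ hx
      obtain ⟨hdis, hX, hS⟩ := (Finset.mem_filter.1 hx).2
      simp only at hdis hX hS
      have hdiag : ∀ e ∈ D (X, S), ¬ e.IsDiag := by
        intro e he
        simp only [D, Finset.mem_image, Finset.mem_product, Prod.exists] at he
        obtain ⟨a, b, ⟨ha, hb⟩, rfl⟩ := he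
        simp only [Function.uncurry_apply_pair, Sym2.mk_isDiag_iff]
        rintro rfl
        exact (Finset.disjoint_left.1 hdis ha) hb
      refine (tail_set _ hdiag true (q + 1)).trans ?_
      have hcard : (D (X, S)).card = X.card * S.card := by
        rw [← Finset.card_product]
        apply Finset.card_image_of_injOn
        rintro ⟨a, b⟩ hab ⟨c, d⟩ hcd h
        simp only [Finset.coe_product, Set.mem_prod, Finset.mem_coe] at hab hcd
        simp only [Function.uncurry_apply_pair, Sym2.eq_iff] at h
        rcases h with ⟨rfl, rfl⟩ | ⟨rfl, rfl⟩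
        · rfl
        · exact absurd hcd.2 (Finset.disjoint_left.1 hdis hab.1)
      rw [hcard]
      have h4q : 4 * q ≤ X.card * S.card := by
        have h5 : n * n ≤ (B * X.card) * (B * S.card) := Nat.mul_le_mul hX hS
        have h6 : q * (4 * B ^ 2) ≤ n ^ 2 := Nat.div_mul_le_self _ _
        have h7 : (B ^ 2) * (4 * q) ≤ B ^ 2 * (X.card * S.card) := by nlinarith
        exact Nat.le_of_mul_le_mul_left h7 (by positivity)
      have hqn : 5 * n ≤ q := by
        rw [hq, Nat.le_div_iff_mul_le hB2]
        nlinarith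
      have hr : (81 / 128 : ℝ) ^ 5 ≤ 1 / 8 := by norm_num
      calc (2 : ℝ) ^ (q + 1) * (3 / 4) ^ (X.card * S.card)
          ≤ 2 ^ (q + 1) * (3 / 4) ^ (4 * q) := by
            apply mul_le_mul_of_nonneg_left _ (by positivity)
            exact pow_le_pow_of_le_one (by norm_num) (by norm_num) h4q
        _ = 2 * (81 / 128) ^ q := by
            rw [pow_succ, pow_mul, mul_comm ((2 : ℝ) ^ q) 2, mul_assoc, ← mul_pow]
            norm_num
        _ ≤ 2 * (81 / 128) ^ (5 * n) := by
            apply mul_le_mul_of_nonneg_left _ (by norm_num)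
            exact pow_le_pow_of_le_one (by norm_num) (by norm_num) hqn
        _ = 2 * ((81 / 128) ^ 5) ^ n := by rw [pow_mul]
        _ ≤ 2 * (1 / 8) ^ n := by
            apply mul_le_mul_of_nonneg_left _ (by norm_num)
            exact pow_le_pow_left₀ (by positivity) hr n
    refine (Finset.sum_le_sum h2).trans ?_
    rw [Finset.sum_const, nsmul_eq_mul]
    have hs : (s.card : ℝ) ≤ 4 ^ n := by
      have : s.card ≤ Fintype.card (Finset (Fin n) × Finset (Fin n)) := Finset.card_le_univ s
      rw [Fintype.card_prod, Fintype.card_finset, Fintype.card_fin, ← mul_pow] at this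
      exact_mod_cast this
    calc (s.card : ℝ) * (2 * (1 / 8) ^ n) ≤ 4 ^ n * (2 * (1 / 8) ^ n) := by
          apply mul_le_mul_of_nonneg_right hs (by positivity)
      _ = 2 * (4 * (1 / 8)) ^ n := by rw [mul_pow]; ring
      _ = 2 * (1 / 2) ^ n := by norm_num
  have hlim : Tendsto (fun n : ℕ => 2 * (1 / 2 : ℝ) ^ n) atTop (𝓝 0) := by
    have := (tendsto_pow_atTop_nhds_zero_of_lt_one (r := (1 / 2 : ℝ)) (by norm_num)
      (by norm_num)).const_mul 2
    simpa using this
  exact tendsto_of_tendsto_of_tendsto_of_le_of_le' tendsto_const_nhds hlim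
    (Eventually.of_forall fun n => pr_nonneg _ _) hbound

end Pool.Agent.Q281.IPS
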