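import Mathlib
import Pool.Agent.Q281.IPS.Whp2
import Pool.Agent.Q281.IPS.Seed

/-!
Assembly.
-/

open Filter Topology

namespace Pool.Agent.Q281.IPS

open SimpleGraph

lemma mm_list : ∀ p ∈ midL, mm p.1.1 p.1.2 = p.2 := by decide

lemma midL_facts : ∀ p ∈ midL, p.1.1 < 17 ∧ p.1.2 < 17 ∧ p.1.1 ≠ p.1.2 ∧
    RR p.1.1 p.1.2 = false ∧ RR p.1.1 p.2 = true ∧ RR p.1.2 p.2 = true ∧ p.2 < 17 ∧
    p.1.1 ≠ p.2 ∧ p.1.2 ≠ p.2 := by decide

lemma midL_first : ∀ p ∈ midL.take 13, p ∈ midL ∧ p.1.1 < 9 ∧ p.1.2 < 9 ∧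
    p.1 ≠ (4, 5) ∧ p.1 ≠ (5, 4) := by decide

lemma midL9_mem : ∀ p ∈ midL9,
    (((((p.1.1 : Fin 9) : ℕ), ((p.1.2 : Fin 9) : ℕ)), ((p.2 : Fin 9) : ℕ)) : (ℕ × ℕ) × ℕ)
      ∈ midL.take 13 := by decide +kernel

/-- The middle vertex as a function of unordered pairs. -/
def mmS : Sym2 ℕ → ℕ := Sym2.lift ⟨mm, mm_symm⟩

/-- Weight inequality of a metrized system for paths of length two. -/
lemma two_path_le {V : Type} {G : SimpleGraph V} {M : Sym2 V → V} {x0 a b y0 : V}
    (D : Data G M x0 a b y0) {w : Sym2 V → ℝ}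
    (hw : ∀ (u v : V) (Q : G.Walk u v), Q.IsPath →
      (((theSystem D).path u v).edges.map w).sum ≤ (Q.edges.map w).sum)
    {u v z : V} (huv : u ≠ v) (h1 : G.Adj u z) (h2 : G.Adj z v) :
    wsum w (LL G M x0 a b y0 u v) ≤ w s(u, z) + w s(z, v) := by
  have h := hw u v (Walk.cons h1 (Walk.cons h2 Walk.nil)) (by
    rw [Walk.isPath_def]
    simp [h1.ne, h2.ne, huv])
  rw [edges_sum, support_path] at h
  simpa using h

set_option linter.unusedSimpArgs false in
theorem good_of {n : ℕ} (hn : 512 ≤ n) (G : SimpleGraph (Fin n))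
    (hW : ∀ K < 17, ManyWit K n G) (hN : ManyNonadj 4096 n G) (hB : ManyBetween 32 n G) :
    Good G := by
  classical
  -- embed the seed
  obtain ⟨φ, hφ, hadj⟩ := embed (G := G) RR RR_symm 17 (by
    intro K hK u hu t
    have h1 := hW K hK u hu t
    rw [← Finset.card_pos]
    by_contra hc
    have : (wit G u t).card = 0 := by omega
    rw [this] at h1
    omega) 17 le_rfl
  let g : ℕ → Fin n := fun i => if h : i < 17 then φ ⟨i, h⟩ else φ 0
  have hg : ∀ i (h : i < 17), g i = φ ⟨i, h⟩ := fun i h => dif_pos h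
  have ginj : ∀ i j, i < 17 → j < 17 → g i = g j → i = j := by
    intro i j hi hj h
    rw [hg i hi, hg j hj] at h
    exact congrArg Fin.val (hφ h)
  have gadj : ∀ i j, i < 17 → j < 17 → i ≠ j → (G.Adj (g i) (g j) ↔ RR i j = true) := by
    intro i j hi hj hij
    rw [hg i hi, hg j hj]
    exact hadj ⟨i, hi⟩ ⟨j, hj⟩ (fun h => hij (congrArg Fin.val h))
  let ginv : Fin n → ℕ := fun x => if h : ∃ i, i < 17 ∧ g i = x then Classical.choose h else 0
  have hginv : ∀ i, i < 17 → ginv (g i) = i := by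
    intro i hi
    have h : ∃ j, j < 17 ∧ g j = g i := ⟨i, hi, rfl⟩
    have h1 : ginv (g i) = Classical.choose h := dif_pos h
    rw [h1]
    exact ginj _ _ (Classical.choose_spec h).1 hi (Classical.choose_spec h).2
  let mid0 : Sym2 (Fin n) → Fin n := fun e => g (mmS (e.map ginv))
  have hmid0 : ∀ i j, i < 17 → j < 17 → mid0 s(g i, g j) = g (mm i j) := by
    intro i j hi hj
    simp only [mid0, Sym2.map_mk, mmS, Sym2.lift_mk, hginv i hi, hginv j hj]
  let T0 : Finset (Fin n) := (Finset.range 9).image g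
  let F : Finset (Fin n) := (Finset.Ico 9 17).image g
  have hT0 : ∀ i, i < 9 → g i ∈ T0 := fun i hi => Finset.mem_image.2 ⟨i, by simpa using hi, rfl⟩
  have hFmem : ∀ i, 9 ≤ i → i < 17 → g i ∈ F := fun i h1 h2 =>
    Finset.mem_image.2 ⟨i, by simp [h1, h2], rfl⟩
  have hFcard : F.card ≤ 8 := by
    refine Finset.card_image_le.trans ?_
    simp
  have hTcard : T0.card = 9 := by
    rw [Finset.card_image_of_injOn]
    · simp
    · intro i hi j hj h
      simp only [Finset.coe_range, Set.mem_Iio] at hi hj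
      exact ginj i j (by omega) (by omega) h
  have hdis : Disjoint T0 F := by
    rw [Finset.disjoint_left]
    intro x hx hxF
    obtain ⟨i, hi, rfl⟩ := Finset.mem_image.1 hx
    obtain ⟨j, hj, hij⟩ := Finset.mem_image.1 hxF
    simp only [Finset.mem_range, Finset.mem_Ico] at hi hj
    have := ginj j i (by omega) (by omega) hij
    omega
  let U0 : Finset (Sym2 (Fin n)) :=
    ((midL.take 13).toFinset).image (fun p => s(g p.1.1, g p.1.2))
  have hU0 : ∀ e, e ∈ U0 ↔ ∃ p ∈ midL.take 13, s(g p.1.1, g p.1.2) = e := by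
    intro e
    simp [U0]
  have hSt0 : St G F mid0 T0 U0 mid0 := by
    refine ⟨?_, ?_, ?_, fun _ _ _ _ => rfl, ?_⟩
    · intro A hA hA'
      let f : Fin 9 → Bool := fun i => decide (g i ∈ A)
      have hf : (midL9.all (fun p => (f p.1.1 != f p.1.2) || (f p.2 == f p.1.1))) = true := by
        rw [List.all_eq_true]
        intro p hp
        have hmem : ((((p.1.1 : ℕ), (p.1.2 : ℕ)), (p.2 : ℕ)) : (ℕ × ℕ) × ℕ) ∈ midL.take 13 :=
          midL9_mem p hp
        have hq := midL_first _ hmem
        have hq2 := mm_list _ hq.1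
        simp only at hq2
        have hU : s(g (p.1.1 : ℕ), g (p.1.2 : ℕ)) ∈ U0 := (hU0 _).2 ⟨_, hmem, rfl⟩
        have h1 := hA _ _ hU
        have h2 := hA' _ _ hU
        rw [hmid0 _ _ (by omega) (by omega), hq2] at h1 h2
        by_cases c1 : g (p.1.1 : ℕ) ∈ A <;> by_cases c2 : g (p.1.2 : ℕ) ∈ A
        · have := h1 c1 c2
          simp [f, c1, c2, this]
        · simp [f, c1, c2]
        · simp [f, c1, c2]
        · have := h2 c1 c2
          simp [f, c1, c2, this]
      have hall := seed_check f hf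
      by_cases c0 : g 0 ∈ A
      · left
        intro x hx
        obtain ⟨i, hi, rfl⟩ := Finset.mem_image.1 hx
        simp only [Finset.mem_range] at hi
        have := hall ⟨i, hi⟩
        simp only [f, Fin.val_zero, c0, decide_true, decide_eq_true_eq] at this
        exact this
      · right
        intro x hx
        obtain ⟨i, hi, rfl⟩ := Finset.mem_image.1 hx
        simp only [Finset.mem_range] at hi
        have := hall ⟨i, hi⟩
        simp only [f, Fin.val_zero, c0, decide_false, decide_eq_false_iff_not] at this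
        exact this
    · intro u v huv
      obtain ⟨p, hp, hpe⟩ := (hU0 _).1 huv
      have hq := midL_first p hp
      rw [Sym2.eq_iff] at hpe
      rcases hpe with ⟨rfl, rfl⟩ | ⟨rfl, rfl⟩
      · exact ⟨hT0 _ hq.2.1, hT0 _ hq.2.2.1⟩
      · exact ⟨hT0 _ hq.2.2.1, hT0 _ hq.2.1⟩
    · intro u v huv
      obtain ⟨p, hp, hpe⟩ := (hU0 _).1 huv
      have hq := midL_first p hp
      have hf := midL_facts p hq.1
      obtain ⟨f1, f2, f3, f4, f5, f6, f7, f8, f9⟩ := hf
      have e0 : mid0 s(u, v) = g p.2 := by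
        rw [← hpe, hmid0 _ _ f1 f2, mm_list p hq.1]
      rw [e0]
      have a1 : G.Adj (g p.1.1) (g p.2) := (gadj _ _ f1 f7 f8).2 f5
      have a2 : G.Adj (g p.1.2) (g p.2) := (gadj _ _ f2 f7 f9).2 f6
      have a3 : ¬ G.Adj (g p.1.1) (g p.1.2) := by
        rw [gadj _ _ f1 f2 f3, f4]; simp
      have a4 : g p.1.1 ≠ g p.1.2 := fun h => f3 (ginj _ _ f1 f2 h)
      have a5 : g p.1.1 ∉ F := Finset.disjoint_left.1 hdis (hT0 _ hq.2.1)
      have a6 : g p.1.2 ∉ F := Finset.disjoint_left.1 hdis (hT0 _ hq.2.2.1)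
      rw [Sym2.eq_iff] at hpe
      rcases hpe with ⟨rfl, rfl⟩ | ⟨rfl, rfl⟩
      · exact ⟨a4, a3, a1, a2, fun h => a5 h.1⟩
      · exact ⟨a4.symm, fun h => a3 h.symm, a2, a1, fun h => a6 h.1⟩
    · rw [hTcard]
      refine Finset.card_image_le.trans ?_
      refine (List.toFinset_card_le _).trans ?_
      decide
  -- first stage
  have hstage1 := grow1 (G := G) (F := F) (mid0 := mid0) (N := n / 16) (by
      intro u hu t
      have := hW 3 (by norm_num) u hu t
      rw [Nat.div_le_iff_le_mul_add_pred (by norm_num)]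
      norm_num at this
      omega)
    ⟨T0, U0, mid0, hSt0, hTcard, hdis, g 4, hT0 4 (by norm_num), g 5, hT0 5 (by norm_num),
      fun h => by have := ginj 4 5 (by norm_num) (by norm_num) h; omega,
      by rw [gadj 4 5 (by norm_num) (by norm_num) (by norm_num)]; decide,
      by
        intro hc
        obtain ⟨p, hp, hpe⟩ := (hU0 _).1 hc
        have hq := midL_first p hp
        rw [Sym2.eq_iff] at hpe
        rcases hpe with ⟨h1, h2⟩ | ⟨h1, h2⟩
        · have e1 := ginj _ _ (by omega) (by norm_num) h1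
          have e2 := ginj _ _ (by omega) (by norm_num) h2
          exact hq.2.2.2.1 (Prod.ext e1 e2)
        · have e1 := ginj _ _ (by omega) (by norm_num) h1
          have e2 := ginj _ _ (by omega) (by norm_num) h2
          exact hq.2.2.2.2 (Prod.ext e1 e2)⟩
    (n / 16 - 8) (by omega) (by omega)
  obtain ⟨T1, U1, mid1, hSt1, hcard1, -, -⟩ := hstage1
  -- second stage
  obtain ⟨U, mid, hSt⟩ := grow2 (G := G) (F := F) (mid0 := mid0) (k0 := n / 16 - 8) hFcard (by
      intro T hT hTne
      have hTn : n ≤ 32 * T.card := by omega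
      have hX : (Finset.univ \ T).Nonempty := by
        rw [Finset.nonempty_iff_ne_empty]
        intro hc
        rw [Finset.sdiff_eq_empty_iff_subset] at hc
        exact hTne (Finset.univ_subset_iff.1 hc)
      have hTle : T.card ≤ n := by
        have := Finset.card_le_univ T
        rwa [Fintype.card_fin] at this
      have main : ∃ w, w ∉ T ∧ n ≤ 4096 * (T.filter (fun z => G.Adj w z)).card := by
        by_cases hc : n ≤ 32 * (Finset.univ \ T).card
        · obtain ⟨w, hw, hw2⟩ := hB (Finset.univ \ T) T Finset.sdiff_disjoint hc hTn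
          refine ⟨w, (Finset.mem_sdiff.1 hw).2, ?_⟩
          norm_num at hw2
          convert hw2
        · obtain ⟨w, hw⟩ := hX
          refine ⟨w, (Finset.mem_sdiff.1 hw).2, ?_⟩
          have h1 := hW 1 (by norm_num) (fun _ => w) (fun i j _ => Subsingleton.elim i j)
            (fun _ => true)
          have h2 : wit G (fun _ : Fin 1 => w) (fun _ => true) ⊆
              (T.filter (fun z => G.Adj w z)) ∪ (Finset.univ \ T) := by
            intro z hz
            obtain ⟨-, hz2⟩ := mem_wit.1 hz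
            have hz3 : G.Adj z w := (hz2 0).2 rfl
            by_cases hzT : z ∈ T
            · exact Finset.mem_union_left _ (Finset.mem_filter.2 ⟨hzT, hz3.symm⟩)
            · exact Finset.mem_union_right _ (by simp [hzT])
          have h3 := (Finset.card_le_card h2).trans (Finset.card_union_le _ _)
          norm_num at h1
          omega
      obtain ⟨w, hwT, hw⟩ := main
      refine ⟨w, hwT, ?_⟩
      have := hN _ hw
      have h5 : T.card + 68 < 3 * n := by omega
      exact lt_of_lt_of_le h5 this)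
    _ T1 U1 mid1 hSt1 hcard1.ge rfl
  -- the final middle vertices
  let OK : Sym2 (Fin n) → Prop := fun e =>
    ∀ u v, e = s(u, v) → G.Adj u (mid e) ∧ G.Adj v (mid e)
  let cm : Sym2 (Fin n) → Fin n := fun e =>
    if h : ∃ z, ∀ u v, e = s(u, v) → G.Adj u z ∧ G.Adj v z then Classical.choose h else mid e
  let M : Sym2 (Fin n) → Fin n := fun e => if OK e then mid e else cm e
  have hcommon : ∀ u v, u ≠ v → ∃ z, G.Adj u z ∧ G.Adj v z := by
    intro u v huv
    have h1 := hW 2 (by norm_num) ![u, v] (by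
      intro i j hij
      fin_cases i <;> fin_cases j <;> simp at hij ⊢ <;>
        first | exact absurd hij huv | exact absurd hij.symm huv) (fun _ => true)
    have h2 : (wit G ![u, v] (fun _ => true)).Nonempty := by
      rw [← Finset.card_pos]
      by_contra hc
      have : (wit G ![u, v] (fun _ => true)).card = 0 := by omega
      rw [this] at h1
      omega
    obtain ⟨z, hz⟩ := h2
    obtain ⟨-, hz2⟩ := mem_wit.1 hz
    exact ⟨z, ((hz2 0).2 rfl).symm, ((hz2 1).2 rfl).symm⟩
  have hM : ∀ u v, u ≠ v → G.Adj u (M s(u, v)) ∧ G.Adj (M s(u, v)) v := by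
    intro u v huv
    by_cases hOK : OK s(u, v)
    · have h1 : M s(u, v) = mid s(u, v) := if_pos hOK
      rw [h1]
      have := hOK u v rfl
      exact ⟨this.1, this.2.symm⟩
    · have h1 : M s(u, v) = cm s(u, v) := if_neg hOK
      rw [h1]
      have hex : ∃ z, ∀ u' v', s(u, v) = s(u', v') → G.Adj u' z ∧ G.Adj v' z := by
        obtain ⟨z, hz1, hz2⟩ := hcommon u v huv
        refine ⟨z, fun u' v' h => ?_⟩
        rw [Sym2.eq_iff] at h
        rcases h with ⟨rfl, rfl⟩ | ⟨rfl, rfl⟩
        · exact ⟨hz1, hz2⟩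
        · exact ⟨hz2, hz1⟩
      have h2 : cm s(u, v) = Classical.choose hex := dif_pos hex
      rw [h2]
      have := Classical.choose_spec hex u v rfl
      exact ⟨this.1, this.2.symm⟩
  have hMU : ∀ u v, s(u, v) ∈ U → M s(u, v) = mid s(u, v) := by
    intro u v huv
    apply if_pos
    intro u' v' h
    have := hSt.ok u' v' (h ▸ huv)
    rw [h]
    exact ⟨this.2.2.1, this.2.2.2.1⟩
  have hMg : ∀ p ∈ midL, 9 ≤ p.1.1 → 9 ≤ p.1.2 → M s(g p.1.1, g p.1.2) = g p.2 := by
    intro p hp h9 h9'
    obtain ⟨f1, f2, f3, f4, f5, f6, f7, f8, f9⟩ := midL_facts p hp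
    have e0 : mid s(g p.1.1, g p.1.2) = g p.2 := by
      rw [hSt.res _ (hFmem _ h9 f1) _ (hFmem _ h9' f2), hmid0 _ _ f1 f2, mm_list p hp]
    have a1 : G.Adj (g p.1.1) (g p.2) := (gadj _ _ f1 f7 f8).2 f5
    have a2 : G.Adj (g p.1.2) (g p.2) := (gadj _ _ f2 f7 f9).2 f6
    have : M s(g p.1.1, g p.1.2) = mid s(g p.1.1, g p.1.2) := by
      apply if_pos
      intro u' v' h
      rw [e0]
      rw [Sym2.eq_iff] at h
      rcases h with ⟨rfl, rfl⟩ | ⟨rfl, rfl⟩
      · exact ⟨a1, a2⟩
      · exact ⟨a2, a1⟩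
    rw [this, e0]
  have gA : ∀ i j, i < 17 → j < 17 → i ≠ j → RR i j = true → G.Adj (g i) (g j) :=
    fun i j hi hj hij h => (gadj i j hi hj hij).2 h
  have gN : ∀ i j, i < 17 → j < 17 → i ≠ j → RR i j = false → ¬ G.Adj (g i) (g j) := by
    intro i j hi hj hij h hc
    rw [gadj i j hi hj hij, h] at hc
    exact absurd hc (by simp)
  have gne : ∀ i j, i < 17 → j < 17 → i ≠ j → g i ≠ g j :=
    fun i j hi hj hij h => hij (ginj i j hi hj h)
  have D : Data G M (g 9) (g 10) (g 11) (g 12) := by
    refine ⟨fun u v huv _ _ => hM u v huv, ?_, ?_, ?_, ?_, ?_, ?_, ?_, ?_, ?_, ?_, ?_⟩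
    · exact gA 9 10 (by norm_num) (by norm_num) (by norm_num) (by decide)
    · exact gA 10 11 (by norm_num) (by norm_num) (by norm_num) (by decide)
    · exact gA 11 12 (by norm_num) (by norm_num) (by norm_num) (by decide)
    · exact gne 9 12 (by norm_num) (by norm_num) (by norm_num)
    · exact gne 9 11 (by norm_num) (by norm_num) (by norm_num)
    · exact gne 10 12 (by norm_num) (by norm_num) (by norm_num)
    · exact gN 9 12 (by norm_num) (by norm_num) (by norm_num) (by decide)
    · exact gN 9 11 (by norm_num) (by norm_num) (by norm_num) (by decide)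
    · exact gN 10 12 (by norm_num) (by norm_num) (by norm_num) (by decide)
    · exact hMg ((9, 11), 10) (by decide) (by norm_num) (by norm_num)
    · exact hMg ((10, 12), 11) (by decide) (by norm_num) (by norm_num)
  refine ⟨theSystem D, consistent D, ?_, ?_⟩
  · -- irreducible
    rintro ⟨A, ⟨x, hx⟩, ⟨y, hy⟩, hA, hA'⟩
    have hsupp : ∀ u v, s(u, v) ∈ U → mid s(u, v) ∈ ((theSystem D).path u v).support := by
      intro u v huv
      have hok := hSt.ok u v huv
      rw [support_path, LL_mid hok.1 hok.2.1, hMU u v huv]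
      · simp
      · intro hc
        apply hok.2.2.2.2
        rw [Sym2.eq_iff] at hc
        rcases hc with ⟨rfl, rfl⟩ | ⟨rfl, rfl⟩
        · exact ⟨hFmem 9 (by norm_num) (by norm_num), hFmem 12 (by norm_num) (by norm_num)⟩
        · exact ⟨hFmem 12 (by norm_num) (by norm_num), hFmem 9 (by norm_num) (by norm_num)⟩
    rcases hSt.irr A (fun u v huv hu hv => hA u hu v hv _ (hsupp u v huv))
      (fun u v huv hu hv => hA' u hu v hv _ (hsupp u v huv)) with h | h
    · exact hy (h y (Finset.mem_univ _))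
    · exact h x (Finset.mem_univ _) hx
  · -- not metrizable
    rintro ⟨w, hpos, hw⟩
    have key : ∀ p ∈ midL, 9 ≤ p.1.1 → 9 ≤ p.1.2 → s(p.1.1, p.1.2) ≠ s(9, 12) →
        ∀ z, z < 17 → RR p.1.1 z = true → RR z p.1.2 = true → p.1.1 ≠ z → z ≠ p.1.2 →
        w s(g p.1.1, g p.2) + w s(g p.2, g p.1.2) ≤
          w s(g p.1.1, g z) + w s(g z, g p.1.2) := by
      intro p hp h9 h9' hne z hz hz1 hz2 hz3 hz4
      obtain ⟨f1, f2, f3, f4, f5, f6, f7, f8, f9⟩ := midL_facts p hp
      have h := two_path_le D hw (gne _ _ f1 f2 f3) (gA _ _ f1 hz hz3 hz1) (gA _ _ hz f2 hz4 hz2)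
      rw [LL_mid (gne _ _ f1 f2 f3) (gN _ _ f1 f2 f3 f4), hMg p hp h9 h9'] at h
      · simpa [wsum] using h
      · intro hc
        apply hne
        rw [Sym2.eq_iff] at hc ⊢
        rcases hc with ⟨h1, h2⟩ | ⟨h1, h2⟩
        · exact Or.inl ⟨ginj _ _ f1 (by norm_num) h1, ginj _ _ f2 (by norm_num) h2⟩
        · exact Or.inr ⟨ginj _ _ f1 (by norm_num) h1, ginj _ _ f2 (by norm_num) h2⟩
    have k1 := key ((9, 15), 14) (by decide) (by norm_num) (by norm_num) (by decide) 10
      (by norm_num) (by decide) (by decide) (by norm_num) (by norm_num)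
    have k2 := key ((9, 16), 14) (by decide) (by norm_num) (by norm_num) (by decide) 10
      (by norm_num) (by decide) (by decide) (by norm_num) (by norm_num)
    have k3 := key ((12, 13), 14) (by decide) (by norm_num) (by norm_num) (by decide) 11
      (by norm_num) (by decide) (by decide) (by norm_num) (by norm_num)
    have k4 := key ((12, 15), 14) (by decide) (by norm_num) (by norm_num) (by decide) 11
      (by norm_num) (by decide) (by decide) (by norm_num) (by norm_num)
    have k5 := key ((13, 15), 11) (by decide) (by norm_num) (by norm_num) (by decide) 14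
      (by norm_num) (by decide) (by decide) (by norm_num) (by norm_num)
    have k6 := key ((15, 16), 10) (by decide) (by norm_num) (by norm_num) (by decide) 14
      (by norm_num) (by decide) (by decide) (by norm_num) (by norm_num)
    have k7 := two_path_le D hw (u := g 9) (v := g 12) (z := g 14)
      (gne 9 12 (by norm_num) (by norm_num) (by norm_num))
      (gA 9 14 (by norm_num) (by norm_num) (by norm_num) (by decide))
      (gA 14 12 (by norm_num) (by norm_num) (by norm_num) (by decide))
    rw [LL_spec D] at k7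
    simp only [wsum] at k7
    have hp := hpos s(g 10, g 11)
      (gA 10 11 (by norm_num) (by norm_num) (by norm_num) (by decide))
    simp only at k1 k2 k3 k4 k5 k6
    have s1 : w s(g 15, g 14) = w s(g 14, g 15) := by rw [Sym2.eq_swap]
    have s2 : w s(g 14, g 12) = w s(g 12, g 14) := by rw [Sym2.eq_swap]
    have s3 : w s(g 14, g 13) = w s(g 13, g 14) := by rw [Sym2.eq_swap]
    have s4 : w s(g 12, g 11) = w s(g 11, g 12) := by rw [Sym2.eq_swap]
    have s5 : w s(g 13, g 11) = w s(g 11, g 13) := by rw [Sym2.eq_swap]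
    have s6 : w s(g 15, g 10) = w s(g 10, g 15) := by rw [Sym2.eq_swap]
    linarith

/-- Main theorem. -/
theorem main : Tendsto (fun n => pr n (fun G => Good G)) atTop (𝓝 1) := by
  apply Whp.tendsto
  have h1 := Whp.all_lt 17 (fun K => whp_manyWit K)
  have h2 := whp_manyNonadj 4096 (by norm_num)
  have h3 := whp_manyBetween 32 (by norm_num)
  refine ((h1.and h2).and h3).mono ?_
  filter_upwards [eventually_ge_atTop 512] with n hn G hG
  exact good_of hn G hG.1.1 hG.1.2 hG.2

end Pool.Agent.Q281.IPS
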